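import Pool.Agent.Lib.MP_c7af3c_ag.LX.H87.Jac

/-!
Two fields with algebraically independent families of the same kind have a common extension in
which the families agree; points of a variety over an extension of an algebraically closed field.
-/

set_option autoImplicit false

namespace Pool.Agent.LX.H87

open MvPolynomial
open scoped TensorProduct

/-- Two fields with algebraically independent families indexed by the same set embed into a common
field in such a way that the two families agree. -/
theorem amalgam {ι L k : Type} [Field L] [Field k] (c' : ι → L) (c : ι → k)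
    (h' : AlgebraicIndependent ℤ c') (h : AlgebraicIndependent ℤ c) :
    ∃ (Ω : Type) (_ : Field Ω) (φ : L →+* Ω) (ψ : k →+* Ω), ∀ i, φ (c' i) = ψ (c i) := by
  let R := MvPolynomial ι ℤ
  let K := FractionRing R
  let f' : R →+* L := (aeval c' : MvPolynomial ι ℤ →ₐ[ℤ] L).toRingHom
  let f : R →+* k := (aeval c : MvPolynomial ι ℤ →ₐ[ℤ] k).toRingHom
  have hf' : Function.Injective f' := h'
  have hf : Function.Injective f := h
  let g' : K →+* L := IsFractionRing.lift hf'
  let g : K →+* k := IsFractionRing.lift hf
  let _ : Algebra K L := g'.toAlgebra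
  let _ : Algebra K k := g.toAlgebra
  have : Nontrivial (L ⊗[K] k) :=
    Algebra.TensorProduct.nontrivial_of_algebraMap_injective_of_flat_left K L k
      (algebraMap K k).injective
  obtain ⟨m, hm⟩ := Ideal.exists_maximal (L ⊗[K] k)
  let _ := Ideal.Quotient.field m
  refine ⟨(L ⊗[K] k) ⧸ m, inferInstance,
    (Ideal.Quotient.mk m).comp (Algebra.TensorProduct.includeLeftRingHom),
    (Ideal.Quotient.mk m).comp
      ((Algebra.TensorProduct.includeRight : k →ₐ[K] L ⊗[K] k) : k →+* L ⊗[K] k), fun i => ?_⟩
  have h1 : algebraMap K L (algebraMap R K (X i)) = c' i := by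
    show g' (algebraMap R K (X i)) = c' i
    rw [IsFractionRing.lift_algebraMap]
    exact aeval_X c' i
  have h2 : algebraMap K k (algebraMap R K (X i)) = c i := by
    show g (algebraMap R K (X i)) = c i
    rw [IsFractionRing.lift_algebraMap]
    exact aeval_X c i
  rw [RingHom.comp_apply, RingHom.comp_apply]
  congr 1
  show (c' i) ⊗ₜ[K] (1 : k) = (1 : L) ⊗ₜ[K] (c i)
  rw [← h1, ← h2]
  generalize algebraMap R K (X i) = z
  rw [Algebra.algebraMap_eq_smul_one, Algebra.algebraMap_eq_smul_one, TensorProduct.smul_tmul]

/-- A system of polynomial equations over an algebraically closed field which is solvable in an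
extension is solvable. -/
theorem exists_point {υ k Ω : Type} [Finite υ] [Field k] [IsAlgClosed k] [Field Ω] (ψ : k →+* Ω)
    (S : Set (MvPolynomial υ k)) (y : υ → Ω) (hy : ∀ f ∈ S, eval₂ ψ y f = 0) :
    ∃ x : υ → k, ∀ f ∈ S, eval x f = 0 := by
  by_contra hcon
  push Not at hcon
  have h1 : zeroLocus k (Ideal.span S) = ∅ := by
    rw [zeroLocus_span]
    ext x
    simp only [Set.mem_ofPred_eq, Set.mem_empty_iff_false, iff_false, not_forall]
    obtain ⟨f, hf, hf'⟩ := hcon x
    exact ⟨f, hf, hf'⟩
  have h2 := vanishingIdeal_zeroLocus_eq_radical (K := k) (Ideal.span S)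
  rw [h1, vanishingIdeal_empty] at h2
  have h3 : Ideal.span S = ⊤ := Ideal.radical_eq_top.1 h2.symm
  have h4 : Ideal.span S ≤ RingHom.ker (eval₂Hom ψ y) := by
    rw [Ideal.span_le]
    intro f hf
    exact hy f hf
  have h5 : (1 : MvPolynomial υ k) ∈ RingHom.ker (eval₂Hom ψ y) := h4 (by rw [h3]; trivial)
  rw [RingHom.mem_ker, map_one] at h5
  exact one_ne_zero h5

end Pool.Agent.LX.H87
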