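import Pool.Agent.Lib.MP_c7af3c_ag.LX.H87.Amalgam

/-!
Rational curves, given by binary forms, on projective varieties.
-/

set_option autoImplicit false

namespace Pool.Agent.LX.H87

open MvPolynomial

/-- There are binary forms `φ l` of one degree, not all proportional, with `F j (φ) = 0` for all
`j`: a nonconstant rational curve on `F = 0`. -/
def RatCurve (k : Type) [Field k] (n : ℕ) {ι : Type} (F : ι → MvPolynomial (Fin (n + 1)) k) : Prop :=
  ∃ (m : ℕ) (φ : Fin (n + 1) → MvPolynomial (Fin 2) k), (∀ l, (φ l).IsHomogeneous m) ∧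
    (∀ j, aeval φ (F j) = 0) ∧
    ∃ (l l' : Fin (n + 1)) (p q : Fin 2 → k),
      eval p (φ l) * eval q (φ l') ≠ eval q (φ l) * eval p (φ l')

end Pool.Agent.LX.H87
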