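import Mathlib

/-!
The Jacobian criterion for algebraic independence, in a form with dual numbers, and a transport
principle: polynomial systems whose coefficients are algebraically independent.
-/

set_option autoImplicit false

namespace Pool.Agent.LX.H87

open MvPolynomial

section Jac

variable {σ ι : Type*}

/-- The point `p + v ε` with values in the dual numbers. -/
def pt (p v : σ → ℚ) : σ → DualNumber ℚ :=
  fun s => TrivSqZeroExt.inl (p s) + TrivSqZeroExt.inr (v s)

theorem aeval_pt (p v : σ → ℚ) (f : MvPolynomial σ ℚ) :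
    (aeval (pt p v) f).fst = eval p f ∧
    (aeval (pt p v) f).snd = eval p (mkDerivation ℚ (fun s => (C (v s) : MvPolynomial σ ℚ)) f) := by
  induction f using MvPolynomial.induction_on with
  | C a =>
    rw [aeval_C, TrivSqZeroExt.algebraMap_eq_inl]
    simp
  | add f g hf hg => simp [hf, hg]
  | mul_X f s hf =>
    rw [map_mul, aeval_X, TrivSqZeroExt.fst_mul, TrivSqZeroExt.snd_mul, hf.1, hf.2]
    simp [pt, mul_comm]

theorem derivation_aeval [Fintype ι] {A : Type*} [CommRing A] [Algebra ℚ A]
    (D : Derivation ℚ A A) (c : ι → A) (P : MvPolynomial ι ℚ) :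
    D (aeval c P) = ∑ i, aeval c (pderiv i P) * D (c i) := by
  classical
  induction P using MvPolynomial.induction_on with
  | C a => simp
  | add f g hf hg =>
    rw [map_add, map_add, hf, hg, ← Finset.sum_add_distrib]
    exact Finset.sum_congr rfl fun i _ => by rw [map_add, map_add]; ring
  | mul_X f s hf =>
    rw [map_mul, aeval_X, D.leibniz, hf]
    have h : ∀ i, aeval c (pderiv i (f * X s)) * D (c i) =
        c s * (aeval c (pderiv i f) * D (c i)) + aeval c f * ((if s = i then 1 else 0) * D (c i)) := by
      intro i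
      rw [pderiv_mul, pderiv_X, map_add, map_mul, map_mul, aeval_X]
      by_cases hsi : s = i
      · subst hsi
        simp
        ring
      · rw [Pi.single_eq_of_ne hsi]
        simp [hsi]
        ring
    rw [Finset.sum_congr rfl fun i _ => h i, Finset.sum_add_distrib, ← Finset.mul_sum,
      ← Finset.mul_sum, smul_eq_mul, smul_eq_mul]
    have h2 : ∑ i, (if s = i then (1 : A) else 0) * D (c i) = D (c s) := by
      rw [Finset.sum_eq_single s]
      · simp
      · intro b _ hb
        rw [if_neg (Ne.symm hb), zero_mul]
      · intro hs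
        exact absurd (Finset.mem_univ s) hs
    rw [h2]
    ring

theorem coeff_eq_zero_of_pderiv {P : MvPolynomial ι ℚ} (h : ∀ i, pderiv i P = 0) (m : ι →₀ ℕ)
    (hm : m ≠ 0) : coeff m P = 0 := by
  classical
  obtain ⟨i, hi⟩ := Finsupp.ne_iff.1 hm
  have hi' : m i ≠ 0 := hi
  have e : (m - Finsupp.single i 1) + Finsupp.single i 1 = m := by
    apply tsub_add_cancel_of_le
    rw [Finsupp.single_le_iff]
    omega
  have h1 := coeff_pderiv (i := i) P (m - Finsupp.single i 1)
  rw [h i, coeff_zero, e] at h1
  have h2 : (((m - Finsupp.single i 1 : ι →₀ ℕ) i : ℕ) : ℚ) + 1 ≠ 0 := by positivity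
  exact (mul_eq_zero.1 h1.symm).resolve_right h2

/-- **Jacobian criterion.** -/
theorem jac [Finite ι] (c : ι → MvPolynomial σ ℚ) (p : σ → ℚ)
    (hs : ∀ τ : ι → ℚ, ∃ v : σ → ℚ, ∀ i, (aeval (pt p v) (c i)).snd = τ i) :
    AlgebraicIndependent ℚ c := by
  classical
  cases nonempty_fintype ι
  choose v hv using hs
  set D : ι → Derivation ℚ (MvPolynomial σ ℚ) (MvPolynomial σ ℚ) :=
    fun j => mkDerivation ℚ (fun s => (C (v (Pi.single j 1) s) : MvPolynomial σ ℚ)) with hD
  set N : Matrix ι ι (MvPolynomial σ ℚ) := fun j i => D j (c i) with hN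
  have hN1 : (eval p).mapMatrix N = 1 := by
    ext j i
    show eval p (D j (c i)) = _
    rw [← (aeval_pt p (v (Pi.single j 1)) (c i)).2, hv, Matrix.one_apply, Pi.single_apply]
    by_cases h : i = j
    · simp [h]
    · simp [h, Ne.symm h]
  have hdet : N.det ≠ 0 := by
    intro h
    have h1 := RingHom.map_det (eval p) N
    rw [hN1, h, map_zero, Matrix.det_one] at h1
    exact zero_ne_one h1
  have key : ∀ P : MvPolynomial ι ℚ, aeval c P = 0 → ∀ i, aeval c (pderiv i P) = 0 := by
    intro P hP
    have h1 : N.mulVec (fun i => aeval c (pderiv i P)) = 0 := by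
      ext1 j
      show ∑ i, N j i * aeval c (pderiv i P) = 0
      have h2 := derivation_aeval (D j) c P
      rw [hP, map_zero] at h2
      rw [h2]
      exact Finset.sum_congr rfl fun i _ => mul_comm _ _
    have h3 := Matrix.eq_zero_of_mulVec_eq_zero hdet h1
    exact fun i => congrFun h3 i
  have main : ∀ n : ℕ, ∀ P : MvPolynomial ι ℚ, (∀ m, coeff m P ≠ 0 → m.degree ≤ n) →
      aeval c P = 0 → P = 0 := by
    intro n
    induction n with
    | zero =>
      intro P hP h0
      have h1 : P = C (coeff 0 P) := by
        ext m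
        rw [coeff_C]
        split_ifs with hm
        · rw [hm]
        · by_contra hne
          exact hm (Finsupp.degree_eq_zero_iff m |>.1 (Nat.le_zero.1 (hP m hne))).symm
      rw [h1, aeval_C] at h0
      have h2 : coeff 0 P = 0 := by
        have : (C (coeff 0 P) : MvPolynomial σ ℚ) = 0 := h0
        exact C_eq_zero.1 this
      rw [h1, h2, C_0]
    | succ n ih =>
      intro P hP h0
      have h1 : ∀ i, pderiv i P = 0 := by
        intro i
        refine ih _ (fun m hm => ?_) (key P h0 i)
        rw [coeff_pderiv] at hm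
        have h2 := hP _ (left_ne_zero_of_mul hm)
        rw [map_add, Finsupp.degree_single] at h2
        omega
      have h1' : P = C (coeff 0 P) := by
        ext m
        rw [coeff_C]
        split_ifs with hm
        · rw [hm]
        · exact coeff_eq_zero_of_pderiv h1 m (Ne.symm hm)
      rw [h1', aeval_C] at h0
      have h2 : coeff 0 P = 0 := by
        have : (C (coeff 0 P) : MvPolynomial σ ℚ) = 0 := h0
        exact C_eq_zero.1 this
      rw [h1', h2, C_0]
  rw [algebraicIndependent_iff]
  intro P hP
  refine main P.totalDegree P (fun m hm => ?_) hP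
  exact le_totalDegree (mem_support_iff.2 hm)

end Jac

end Pool.Agent.LX.H87
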