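import Pool.Agent.Lib.MP_c7af3c_ag.LX.H87.K222Ind
import Pool.Agent.Lib.MP_c7af3c_ag.LX.H95.Lift
import Pool.Agent.Lib.MP_c7af3c_ag.LX.H87.Curve

/-!
# The very general K3 surface (2,2,2) contains a rational curve
-/

set_option autoImplicit false
set_option linter.unusedSimpArgs false

namespace Pool.Agent.LX.H87.K222

open MvPolynomial TrivSqZeroExt Pool.Agent.LX.H95 Matrix

section Curve

variable {S : Type} [CommRing S]

/-- the matrix of the five linear forms -/
def BM (z : Sg → S) : Matrix (Fin 5) (Fin 5) S := Matrix.of fun j l => z (sX j l)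

/-- the point of the hyperplane -/
def px (z : Sg → S) (y : Fin 5 → S) : Fin 5 → S := (BM z).adjugate *ᵥ y

/-- the point of projective space -/
def sx (z : Sg → S) (y : Fin 5 → S) : Fin 6 → S :=
  ![px z y 0, px z y 1, px z y 2, px z y 3, px z y 4,
    z (sA 0) * px z y 0 + z (sA 1) * px z y 1 + z (sA 2) * px z y 2 + z (sA 3) * px z y 3 +
      z (sA 4) * px z y 4]

theorem BM_px (z : Sg → S) (y : Fin 5 → S) (j : Fin 5) :
    (BM z *ᵥ px z y) j = (BM z).det * y j := by
  unfold px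
  rw [Matrix.mulVec_mulVec, Matrix.mul_adjugate, Matrix.smul_mulVec, Matrix.one_mulVec]
  rfl

theorem lf5_sx (z : Sg → S) (y : Fin 5 → S) (a : Fin 5 → S) :
    lf5 a (sx z y) = a 0 * px z y 0 + a 1 * px z y 1 + a 2 * px z y 2 + a 3 * px z y 3 +
      a 4 * px z y 4 := rfl

theorem GG_sx (r : Fin 3) (z : Sg → S) (s t : S) :
    GG r z (sx z (phi (fun i b => z (sQ i b)) s t)) = 0 := by
  set q : Fin 5 → Fin 3 → S := fun i b => z (sQ i b) with hq
  have h1 : ∀ j, lf5 (fun l => z (sX j l)) (sx z (phi q s t)) = (BM z).det * phi q s t j := by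
    intro j
    rw [← BM_px, lf5_sx]
    change _ = ∑ l, z (sX j l) * px z (phi q s t) l
    rw [Fin.sum_univ_five]
  have h2 : sx z (phi q s t) 5 - lf5 (fun l => z (sA l)) (sx z (phi q s t)) = 0 := by
    rw [lf5_sx]
    exact sub_self _
  unfold GG FF
  rw [h2, zero_mul, add_zero, funext h1]
  have h3 := quad_phi q (cpar q fun j => z (sV r j)) (rel_cpar q _) s t
  have h4 : ∀ (c : Fin 10 → S) (y : Fin 5 → S) (D : S), quad c (fun j => D * y j) =
      D ^ 2 * quad c y := by
    intro c y D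
    unfold quad
    ring
  rw [h4, h3, mul_zero]

end Curve

section Maps

variable {S S' : Type} [CommRing S] [CommRing S'] (f : S →+* S')

theorem map_BM (z : Sg → S) : f.mapMatrix (BM z) = BM fun s => f (z s) := rfl

theorem map_px (z : Sg → S) (y : Fin 5 → S) (l : Fin 5) :
    f (px z y l) = px (fun s => f (z s)) (fun j => f (y j)) l := by
  unfold px
  rw [← map_BM, ← RingHom.map_adjugate]
  change f (∑ j, (BM z).adjugate l j * y j) = ∑ j, f ((BM z).adjugate l j) * f (y j)
  rw [map_sum]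
  exact Finset.sum_congr rfl fun j _ => map_mul f _ _

theorem map_qv (a : Fin 3 → S) (s t : S) : f (qv a s t) = qv (fun i => f (a i)) (f s) (f t) := by
  unfold qv
  simp only [map_add, map_mul, map_pow]

theorem map_phi (q : Fin 5 → Fin 3 → S) (s t : S) (j : Fin 5) :
    f (phi q s t j) = phi (fun i b => f (q i b)) (f s) (f t) j := by
  fin_cases j <;> simp [phi, map_qv]

end Maps

section Hom

variable {k : Type} [Field k]

theorem CX_hom {n : ℕ} (a : k) (i : Fin n) :
    (C a * X i : MvPolynomial (Fin n) k).IsHomogeneous 1 := by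
  simpa using (isHomogeneous_C (Fin n) a).mul (isHomogeneous_X k i)

theorem lf5_hom (a : Fin 5 → k) :
    (lf5 (fun l => C (a l)) (fun i => X i) : MvPolynomial (Fin 6) k).IsHomogeneous 1 :=
  ((((CX_hom _ _).add (CX_hom _ _)).add (CX_hom _ _)).add (CX_hom _ _)).add (CX_hom _ _)

theorem lf6_hom (a : Fin 6 → k) :
    (lf6 (fun l => C (a l)) (fun i => X i) : MvPolynomial (Fin 6) k).IsHomogeneous 1 :=
  (((((CX_hom _ _).add (CX_hom _ _)).add (CX_hom _ _)).add (CX_hom _ _)).add (CX_hom _ _)).add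
    (CX_hom _ _)

theorem quad_hom (c : Fin 10 → k) (y : Fin 5 → MvPolynomial (Fin 6) k)
    (hy : ∀ j, (y j).IsHomogeneous 1) :
    (quad (fun π => C (c π)) y : MvPolynomial (Fin 6) k).IsHomogeneous 2 := by
  have h : ∀ (a : k) (i j : Fin 5), (C a * (y i * y j)).IsHomogeneous 2 := by
    intro a i j
    simpa using (isHomogeneous_C (Fin 6) a).mul ((hy i).mul (hy j))
  unfold quad
  exact (((((((((h _ _ _).add (h _ _ _)).add (h _ _ _)).add (h _ _ _)).add (h _ _ _)).add
    (h _ _ _)).add (h _ _ _)).add (h _ _ _)).add (h _ _ _)).add (h _ _ _)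

theorem GG_hom (r : Fin 3) (z : Sg → k) :
    (GG r (fun s => C (z s)) (fun i => X i) : MvPolynomial (Fin 6) k).IsHomogeneous 2 := by
  unfold GG FF
  refine IsHomogeneous.add ?_ ?_
  · have h1 : (cpar (fun i b => (C (z (sQ i b)) : MvPolynomial (Fin 6) k))
        (fun j => C (z (sV r j)))) = fun π => C (cpar (fun i b => z (sQ i b))
          (fun j => z (sV r j)) π) := by
      funext π
      exact (map_cpar (C : k →+* MvPolynomial (Fin 6) k) _ _ π).symm
    rw [h1]
    exact quad_hom _ _ fun j => lf5_hom _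
  · exact ((isHomogeneous_X k _).sub (lf5_hom _)).mul (lf6_hom _)

theorem qv_hom (a : Fin 3 → k) :
    (qv (fun i => C (a i)) (X 0) (X 1) : MvPolynomial (Fin 2) k).IsHomogeneous 2 := by
  have h1 : ∀ (a : k) (i : Fin 2), (C a * X i ^ 2 : MvPolynomial (Fin 2) k).IsHomogeneous 2 := by
    intro a i
    simpa using (isHomogeneous_C (Fin 2) a).mul ((isHomogeneous_X k i).pow 2)
  have h2 : ∀ a : k, (C a * (X 0 * X 1) : MvPolynomial (Fin 2) k).IsHomogeneous 2 := by
    intro a
    simpa using (isHomogeneous_C (Fin 2) a).mul ((isHomogeneous_X k 0).mul (isHomogeneous_X k 1))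
  exact ((h1 _ _).add (h2 _)).add (h1 _ _)

theorem phi_hom (q : Fin 5 → Fin 3 → k) (j : Fin 5) :
    (phi (fun i b => C (q i b)) (X 0) (X 1) j : MvPolynomial (Fin 2) k).IsHomogeneous 8 := by
  fin_cases j
  · exact (((qv_hom _).mul (qv_hom _)).mul (qv_hom _)).mul (qv_hom _)
  · exact (((qv_hom _).mul (qv_hom _)).mul (qv_hom _)).mul (qv_hom _)
  · exact (((qv_hom _).mul (qv_hom _)).mul (qv_hom _)).mul (qv_hom _)
  · exact (((qv_hom _).mul (qv_hom _)).mul (qv_hom _)).mul (qv_hom _)
  · exact (((qv_hom _).mul (qv_hom _)).mul (qv_hom _)).mul (qv_hom _)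

theorem px_hom (z : Sg → k) (y : Fin 5 → MvPolynomial (Fin 2) k)
    (hy : ∀ j, (y j).IsHomogeneous 8) (l : Fin 5) :
    (px (fun s => C (z s)) y l).IsHomogeneous 8 := by
  unfold px
  have h : BM (fun s => (C (z s) : MvPolynomial (Fin 2) k)) =
      (C : k →+* MvPolynomial (Fin 2) k).mapMatrix (BM z) := rfl
  rw [h, ← RingHom.map_adjugate]
  change (∑ j, C ((BM z).adjugate l j) * y j).IsHomogeneous 8
  refine IsHomogeneous.sum _ _ _ fun j _ => ?_
  simpa using (isHomogeneous_C (Fin 2) ((BM z).adjugate l j)).mul (hy j)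

theorem sx_hom (z : Sg → k) (y : Fin 5 → MvPolynomial (Fin 2) k)
    (hy : ∀ j, (y j).IsHomogeneous 8) (i : Fin 6) :
    (sx (fun s => C (z s)) y i).IsHomogeneous 8 := by
  have h : ∀ (a : k) (l : Fin 5), (C a * px (fun s => C (z s)) y l).IsHomogeneous 8 := by
    intro a l
    simpa using (isHomogeneous_C (Fin 2) a).mul (px_hom z y hy l)
  fin_cases i
  · exact px_hom z y hy 0
  · exact px_hom z y hy 1
  · exact px_hom z y hy 2
  · exact px_hom z y hy 3
  · exact px_hom z y hy 4
  · exact ((((h _ 0).add (h _ 1)).add (h _ 2)).add (h _ 3)).add (h _ 4)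

end Hom

/-- the value which must not vanish -/
def hv {S : Type} [CommRing S] (z : Sg → S) : S :=
  (BM z).det * (z (sQ 2 0) * z (sQ 2 2) * (z (sQ 3 0) * z (sQ 3 2)) * (z (sQ 4 0) * z (sQ 4 2))) *
    (z (sQ 1 0) * z (sQ 0 2) - z (sQ 1 2) * z (sQ 0 0))

theorem map_hv {S S' : Type} [CommRing S] [CommRing S'] (f : S →+* S') (z : Sg → S) :
    f (hv z) = hv fun s => f (z s) := by
  unfold hv
  rw [map_mul, map_mul, RingHom.map_det, map_BM]
  simp only [map_sub, map_mul]

theorem hv_ne : (hv fun s => (X s : MvPolynomial Sg ℚ)) ≠ 0 := by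
  intro h
  set w : Sg → ℚ := mk (fun j l => if j = l then 1 else 0) (fun _ => 0) (fun _ _ => 0)
    (![![0, 0, 1], ![1, 0, 0], ![1, 0, 1], ![1, 0, 1], ![1, 0, 1]]) (fun _ _ => 0) with hw
  have h1 := congrArg (eval w) h
  rw [map_hv, map_zero] at h1
  simp only [eval_X] at h1
  have h2 : BM w = 1 := by
    ext j l
    change (if j = l then (1 : ℚ) else 0) = (1 : Matrix (Fin 5) (Fin 5) ℚ) j l
    rw [Matrix.one_apply]
  unfold hv at h1
  rw [h2, Matrix.det_one] at h1
  have e1 : w (sQ 2 0) = 1 := rfl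
  have e2 : w (sQ 2 2) = 1 := rfl
  have e3 : w (sQ 3 0) = 1 := rfl
  have e4 : w (sQ 3 2) = 1 := rfl
  have e5 : w (sQ 4 0) = 1 := rfl
  have e6 : w (sQ 4 2) = 1 := rfl
  have e7 : w (sQ 1 0) = 1 := rfl
  have e8 : w (sQ 0 2) = 1 := rfl
  have e9 : w (sQ 1 2) = 0 := rfl
  have e10 : w (sQ 0 0) = 0 := rfl
  simp only [e1, e2, e3, e4, e5, e6, e7, e8, e9, e10] at h1
  norm_num at h1

/-- The very general complete intersection of three quadrics in five-dimensional projective space
contains a rational curve. -/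
theorem k222 (k : Type) [Field k] [IsAlgClosed k] [CharZero k]
    (F : Fin 3 → MvPolynomial (Fin (5 + 1)) k) (hF : ∀ r, (F r).IsHomogeneous 2)
    (ha : AlgebraicIndependent ℤ fun s : Fin 3 × Ex 6 2 => coeff s.2.1 (F s.1)) :
    RatCurve k 5 F := by
  obtain ⟨p, hp, hh⟩ := lift k _ indep _ ha _ hv_ne
  let f : MvPolynomial Sg ℚ →+* k := eval₂Hom (algebraMap ℚ k) p
  have hfX : ∀ s, f (X s) = p s := fun s => eval₂_X _ _ _
  have hFG : ∀ r, F r = GG r (fun s => C (p s)) (fun i => X i) := by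
    intro r
    refine form_ext (hF r) (GG_hom r p) fun μ => ?_
    have h1 : MvPolynomial.map f (G r) = GG r (fun s => C (p s)) (fun i => X i) := by
      unfold G
      rw [map_GG]
      simp only [MvPolynomial.map_C, MvPolynomial.map_X, hfX]
    have h2 : eval₂ (algebraMap ℚ k) p (coeff μ.1 (G r)) = coeff μ.1 (F r) := hp (r, μ)
    rw [← h1, coeff_map, ← h2]
    rfl
  have hh' : f (hv fun s => X s) ≠ 0 := hh
  rw [map_hv] at hh'
  simp only [hfX] at hh'
  unfold hv at hh'
  obtain ⟨hh1, hr⟩ := mul_ne_zero_iff.1 hh'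
  obtain ⟨hdet, hq⟩ := mul_ne_zero_iff.1 hh1
  set q : Fin 5 → Fin 3 → k := fun i b => p (sQ i b) with hqd
  set Y : Fin 5 → MvPolynomial (Fin 2) k := phi (fun i b => C (q i b)) (X 0) (X 1) with hY
  refine ⟨8, sx (fun s => C (p s)) Y, sx_hom p Y (phi_hom q), fun r => ?_, ?_⟩
  · rw [hFG]
    have h1 := map_GG (aeval (sx (fun s => C (p s)) Y) :
      MvPolynomial (Fin 6) k →ₐ[k] MvPolynomial (Fin 2) k).toRingHom r (fun s => C (p s))
      (fun i => X i)
    refine h1.trans ?_
    have h2 : (fun i => (aeval (sx (fun s => C (p s)) Y) :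
      MvPolynomial (Fin 6) k →ₐ[k] MvPolynomial (Fin 2) k).toRingHom (X i)) =
        sx (fun s => C (p s)) Y := by
      funext i
      exact aeval_X _ _
    have h3 : (fun s => (aeval (sx (fun s => C (p s)) Y) :
      MvPolynomial (Fin 6) k →ₐ[k] MvPolynomial (Fin 2) k).toRingHom (C (p s))) =
        fun s => C (p s) := by
      funext s
      exact aeval_C _ _
    rw [h2, h3]
    exact GG_sx r (fun s => (C (p s) : MvPolynomial (Fin 2) k)) (X 0) (X 1)
  · by_contra hcon
    push Not at hcon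
    have key : ∀ (e : Fin 2 → k) (l : Fin 5), eval e (px (fun s => C (p s)) Y l) =
        px p (phi q (e 0) (e 1)) l := by
      intro e l
      rw [map_px]
      simp only [hY, map_phi, eval_C, eval_X]
    have h1 : ∀ i j : Fin 5, px p (phi q 1 0) i * px p (phi q 0 1) j =
        px p (phi q 0 1) i * px p (phi q 1 0) j := by
      intro i j
      have h2 := hcon i.castSucc j.castSucc ![1, 0] ![0, 1]
      have h3 : ∀ i : Fin 5, sx (fun s => (C (p s) : MvPolynomial (Fin 2) k)) Y i.castSucc =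
          px (fun s => C (p s)) Y i := by
        intro i
        fin_cases i <;> rfl
      rw [h3, h3, key, key, key, key] at h2
      exact h2
    have h4 : (BM p *ᵥ px p (phi q 1 0)) 0 * (BM p *ᵥ px p (phi q 0 1)) 1 =
        (BM p *ᵥ px p (phi q 0 1)) 0 * (BM p *ᵥ px p (phi q 1 0)) 1 := by
      simp only [Matrix.mulVec, dotProduct, Finset.sum_mul_sum]
      refine Finset.sum_congr rfl fun i _ => Finset.sum_congr rfl fun j _ => ?_
      linear_combination (BM p 0 i * BM p 1 j) * h1 i j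
    rw [BM_px, BM_px, BM_px, BM_px] at h4
    have v1 : ∀ i, qv (q i) (1 : k) 0 = q i 0 := by
      intro i
      unfold qv
      ring
    have v2 : ∀ i, qv (q i) (0 : k) 1 = q i 2 := by
      intro i
      unfold qv
      ring
    have c1 : phi q 1 0 0 = q 1 0 * q 2 0 * q 3 0 * q 4 0 := by
      rw [← v1, ← v1, ← v1, ← v1]
      rfl
    have c2 : phi q 0 1 1 = q 0 2 * q 2 2 * q 3 2 * q 4 2 := by
      rw [← v2, ← v2, ← v2, ← v2]
      rfl
    have c3 : phi q 0 1 0 = q 1 2 * q 2 2 * q 3 2 * q 4 2 := by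
      rw [← v2, ← v2, ← v2, ← v2]
      rfl
    have c4 : phi q 1 0 1 = q 0 0 * q 2 0 * q 3 0 * q 4 0 := by
      rw [← v1, ← v1, ← v1, ← v1]
      rfl
    rw [c1, c2, c3, c4] at h4
    refine mul_ne_zero (mul_ne_zero (pow_ne_zero 2 hdet) hq) hr ?_
    linear_combination h4

/-- The same in the format of the library. -/
theorem ratCurve222 (k : Type) [Field k] [IsAlgClosed k] [CharZero k] (d : Fin 3 → ℕ)
    (hd : ∀ m, d m = 2) (F : Fin 3 → MvPolynomial (Fin (5 + 1)) k)
    (hF : ∀ m, (F m).IsHomogeneous (d m))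
    (ha : AlgebraicIndependent ℤ
      (fun s : {s : Fin 3 × (Fin (5 + 1) →₀ ℕ) // s.2.degree = d s.1} => coeff s.1.2 (F s.1.1))) :
    RatCurve k 5 F := by
  refine k222 k F (fun r => (hd r) ▸ hF r) ?_
  exact ha.comp (fun s : Fin 3 × Ex 6 2 => ⟨(s.1, s.2.1), s.2.2.trans (hd _).symm⟩)
    fun s t h => by
      have h1 := congrArg (fun s : {s : Fin 3 × (Fin (5 + 1) →₀ ℕ) // s.2.degree = d s.1} => s.1) h
      obtain ⟨r, μ⟩ := s
      obtain ⟨r', μ'⟩ := t
      have h2 : r = r' := congrArg Prod.fst h1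
      have h3 : μ.1 = μ'.1 := congrArg Prod.snd h1
      rw [h2, Subtype.ext h3]

end Pool.Agent.LX.H87.K222
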