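import Mathlib

/-!
# The K3 surfaces (2,2,2): nets of quadrics with a rational hyperplane section, algebra
-/

set_option autoImplicit false

namespace Pool.Agent.LX.H87.K222

open Matrix

section

variable {S : Type} [CommRing S]

/-- the value of a binary quadratic form -/
def qv (a : Fin 3 → S) (s t : S) : S := a 0 * s ^ 2 + a 1 * (s * t) + a 2 * t ^ 2

/-- the coefficients of the product of three binary quadratic forms -/
def cub (a b c : Fin 3 → S) : Fin 7 → S :=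
  ![a 0 * b 0 * c 0,
    a 0 * b 0 * c 1 + a 0 * b 1 * c 0 + a 1 * b 0 * c 0,
    a 0 * b 0 * c 2 + a 0 * b 2 * c 0 + a 2 * b 0 * c 0 + a 0 * b 1 * c 1 + a 1 * b 0 * c 1 +
      a 1 * b 1 * c 0,
    a 0 * b 1 * c 2 + a 0 * b 2 * c 1 + a 1 * b 0 * c 2 + a 1 * b 2 * c 0 + a 2 * b 0 * c 1 +
      a 2 * b 1 * c 0 + a 1 * b 1 * c 1,
    a 2 * b 2 * c 0 + a 2 * b 0 * c 2 + a 0 * b 2 * c 2 + a 2 * b 1 * c 1 + a 1 * b 2 * c 1 +
      a 1 * b 1 * c 2,
    a 2 * b 2 * c 1 + a 2 * b 1 * c 2 + a 1 * b 2 * c 2,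
    a 2 * b 2 * c 2]

theorem cub_eval (a b c : Fin 3 → S) (s t : S) : qv a s t * qv b s t * qv c s t =
    cub a b c 0 * s ^ 6 + cub a b c 1 * (s ^ 5 * t) + cub a b c 2 * (s ^ 4 * t ^ 2) +
      cub a b c 3 * (s ^ 3 * t ^ 3) + cub a b c 4 * (s ^ 2 * t ^ 4) +
      cub a b c 5 * (s * t ^ 5) + cub a b c 6 * t ^ 6 := by
  have h0 : cub a b c 0 = a 0 * b 0 * c 0 := rfl
  have h1 : cub a b c 1 = a 0 * b 0 * c 1 + a 0 * b 1 * c 0 + a 1 * b 0 * c 0 := rfl
  have h2 : cub a b c 2 = a 0 * b 0 * c 2 + a 0 * b 2 * c 0 + a 2 * b 0 * c 0 +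
    a 0 * b 1 * c 1 + a 1 * b 0 * c 1 + a 1 * b 1 * c 0 := rfl
  have h3 : cub a b c 3 = a 0 * b 1 * c 2 + a 0 * b 2 * c 1 + a 1 * b 0 * c 2 +
    a 1 * b 2 * c 0 + a 2 * b 0 * c 1 + a 2 * b 1 * c 0 + a 1 * b 1 * c 1 := rfl
  have h4 : cub a b c 4 = a 2 * b 2 * c 0 + a 2 * b 0 * c 2 + a 0 * b 2 * c 2 +
    a 2 * b 1 * c 1 + a 1 * b 2 * c 1 + a 1 * b 1 * c 2 := rfl
  have h5 : cub a b c 5 = a 2 * b 2 * c 1 + a 2 * b 1 * c 2 + a 1 * b 2 * c 2 := rfl
  have h6 : cub a b c 6 = a 2 * b 2 * c 2 := rfl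
  rw [h0, h1, h2, h3, h4, h5, h6]
  unfold qv
  ring

/-- the ten products of three of five binary quadratic forms -/
def col (q : Fin 5 → Fin 3 → S) : Fin 10 → Fin 7 → S :=
  ![cub (q 2) (q 3) (q 4), cub (q 1) (q 3) (q 4), cub (q 1) (q 2) (q 4), cub (q 1) (q 2) (q 3),
    cub (q 0) (q 3) (q 4), cub (q 0) (q 2) (q 4), cub (q 0) (q 2) (q 3), cub (q 0) (q 1) (q 4),
    cub (q 0) (q 1) (q 3), cub (q 0) (q 1) (q 2)]

/-- seven columns -/
def M7 (q : Fin 5 → Fin 3 → S) : Matrix (Fin 7) (Fin 7) S :=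
  Matrix.of fun e j => col q (![1, 3, 5, 6, 7, 8, 9] j) e

/-- three columns -/
def N3 (q : Fin 5 → Fin 3 → S) : Matrix (Fin 7) (Fin 3) S :=
  Matrix.of fun e j => col q (![0, 2, 4] j) e

/-- the bound coordinates of a relation -/
def ub (q : Fin 5 → Fin 3 → S) (v : Fin 3 → S) : Fin 7 → S :=
  -((M7 q).adjugate *ᵥ (N3 q *ᵥ v))

/-- the relations between the ten products -/
def cpar (q : Fin 5 → Fin 3 → S) (v : Fin 3 → S) : Fin 10 → S :=
  ![(M7 q).det * v 0, ub q v 0, (M7 q).det * v 1, ub q v 1, (M7 q).det * v 2, ub q v 2,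
    ub q v 3, ub q v 4, ub q v 5, ub q v 6]

/-- the sum of the columns -/
def rel (q : Fin 5 → Fin 3 → S) (c : Fin 10 → S) (e : Fin 7) : S :=
  col q 0 e * c 0 + col q 1 e * c 1 + col q 2 e * c 2 + col q 3 e * c 3 + col q 4 e * c 4 +
    col q 5 e * c 5 + col q 6 e * c 6 + col q 7 e * c 7 + col q 8 e * c 8 + col q 9 e * c 9

theorem M7_ub (q : Fin 5 → Fin 3 → S) (v : Fin 3 → S) :
    M7 q *ᵥ ub q v = -((M7 q).det • (N3 q *ᵥ v)) := by
  unfold ub
  rw [Matrix.mulVec_neg, Matrix.mulVec_mulVec, Matrix.mul_adjugate, Matrix.smul_mulVec,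
    Matrix.one_mulVec]

theorem M7_apply (q : Fin 5 → Fin 3 → S) (u : Fin 7 → S) (e : Fin 7) :
    (M7 q *ᵥ u) e = col q 1 e * u 0 + col q 3 e * u 1 + col q 5 e * u 2 + col q 6 e * u 3 +
      col q 7 e * u 4 + col q 8 e * u 5 + col q 9 e * u 6 := by
  change ∑ j, M7 q e j * u j = _
  rw [Fin.sum_univ_seven]
  rfl

theorem N3_apply (q : Fin 5 → Fin 3 → S) (v : Fin 3 → S) (e : Fin 7) :
    (N3 q *ᵥ v) e = col q 0 e * v 0 + col q 2 e * v 1 + col q 4 e * v 2 := by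
  change ∑ j, N3 q e j * v j = _
  rw [Fin.sum_univ_three]
  rfl

theorem rel_cpar (q : Fin 5 → Fin 3 → S) (v : Fin 3 → S) (e : Fin 7) : rel q (cpar q v) e = 0 := by
  have h1 := congrFun (M7_ub q v) e
  rw [M7_apply] at h1
  have h2 : (-((M7 q).det • (N3 q *ᵥ v))) e = -((M7 q).det * (N3 q *ᵥ v) e) := rfl
  rw [h2, N3_apply] at h1
  change col q 0 e * ((M7 q).det * v 0) + col q 1 e * ub q v 0 + col q 2 e * ((M7 q).det * v 1) +
    col q 3 e * ub q v 1 + col q 4 e * ((M7 q).det * v 2) + col q 5 e * ub q v 2 +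
    col q 6 e * ub q v 3 + col q 7 e * ub q v 4 + col q 8 e * ub q v 5 + col q 9 e * ub q v 6 = 0
  linear_combination h1

theorem cpar_of_rel (q : Fin 5 → Fin 3 → S) (δ : S) (hδ : (M7 q).det * δ = 1) (c : Fin 10 → S)
    (h : ∀ e, rel q c e = 0) : cpar q (![δ * c 0, δ * c 2, δ * c 4]) = c := by
  have h1 : M7 q *ᵥ ![c 1, c 3, c 5, c 6, c 7, c 8, c 9] = -(N3 q *ᵥ ![c 0, c 2, c 4]) := by
    funext e
    rw [M7_apply]
    change _ = -((N3 q *ᵥ ![c 0, c 2, c 4]) e)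
    rw [N3_apply]
    have := h e
    unfold rel at this
    change col q 1 e * c 1 + col q 3 e * c 3 + col q 5 e * c 5 + col q 6 e * c 6 +
      col q 7 e * c 7 + col q 8 e * c 8 + col q 9 e * c 9 =
      -(col q 0 e * c 0 + col q 2 e * c 2 + col q 4 e * c 4)
    linear_combination this
  have h2 : (![δ * c 0, δ * c 2, δ * c 4] : Fin 3 → S) = δ • ![c 0, c 2, c 4] := by
    funext j
    fin_cases j <;> rfl
  have h3 : ub q ![δ * c 0, δ * c 2, δ * c 4] = ![c 1, c 3, c 5, c 6, c 7, c 8, c 9] := by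
    unfold ub
    rw [h2, Matrix.mulVec_smul, ← Matrix.mulVec_neg, ← smul_neg, ← h1, Matrix.mulVec_smul,
      Matrix.mulVec_mulVec, Matrix.adjugate_mul, Matrix.smul_mulVec, Matrix.one_mulVec,
      smul_smul, mul_comm δ, hδ, one_smul]
  funext π
  unfold cpar
  rw [h3]
  fin_cases π
  · change (M7 q).det * (δ * c 0) = c 0
    rw [← mul_assoc, hδ, one_mul]
  · rfl
  · change (M7 q).det * (δ * c 2) = c 2
    rw [← mul_assoc, hδ, one_mul]
  · rfl
  · change (M7 q).det * (δ * c 4) = c 4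
    rw [← mul_assoc, hδ, one_mul]
  · rfl
  · rfl
  · rfl
  · rfl
  · rfl

/-- the quadratic form without squares -/
def quad (c : Fin 10 → S) (y : Fin 5 → S) : S :=
  c 0 * (y 0 * y 1) + c 1 * (y 0 * y 2) + c 2 * (y 0 * y 3) + c 3 * (y 0 * y 4) +
    c 4 * (y 1 * y 2) + c 5 * (y 1 * y 3) + c 6 * (y 1 * y 4) + c 7 * (y 2 * y 3) +
    c 8 * (y 2 * y 4) + c 9 * (y 3 * y 4)

/-- the products of four of the five binary quadratic forms -/
def phi (q : Fin 5 → Fin 3 → S) (s t : S) : Fin 5 → S :=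
  ![qv (q 1) s t * qv (q 2) s t * qv (q 3) s t * qv (q 4) s t,
    qv (q 0) s t * qv (q 2) s t * qv (q 3) s t * qv (q 4) s t,
    qv (q 0) s t * qv (q 1) s t * qv (q 3) s t * qv (q 4) s t,
    qv (q 0) s t * qv (q 1) s t * qv (q 2) s t * qv (q 4) s t,
    qv (q 0) s t * qv (q 1) s t * qv (q 2) s t * qv (q 3) s t]

theorem quad_phi (q : Fin 5 → Fin 3 → S) (c : Fin 10 → S) (h : ∀ e, rel q c e = 0) (s t : S) :
    quad c (phi q s t) = 0 := by
  have h1 : quad c (phi q s t) = (qv (q 0) s t * qv (q 1) s t * qv (q 2) s t * qv (q 3) s t *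
      qv (q 4) s t) *
      (c 0 * (qv (q 2) s t * qv (q 3) s t * qv (q 4) s t) +
        c 1 * (qv (q 1) s t * qv (q 3) s t * qv (q 4) s t) +
        c 2 * (qv (q 1) s t * qv (q 2) s t * qv (q 4) s t) +
        c 3 * (qv (q 1) s t * qv (q 2) s t * qv (q 3) s t) +
        c 4 * (qv (q 0) s t * qv (q 3) s t * qv (q 4) s t) +
        c 5 * (qv (q 0) s t * qv (q 2) s t * qv (q 4) s t) +
        c 6 * (qv (q 0) s t * qv (q 2) s t * qv (q 3) s t) +
        c 7 * (qv (q 0) s t * qv (q 1) s t * qv (q 4) s t) +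
        c 8 * (qv (q 0) s t * qv (q 1) s t * qv (q 3) s t) +
        c 9 * (qv (q 0) s t * qv (q 1) s t * qv (q 2) s t)) := by
    have e0 : phi q s t 0 = qv (q 1) s t * qv (q 2) s t * qv (q 3) s t * qv (q 4) s t := rfl
    have e1 : phi q s t 1 = qv (q 0) s t * qv (q 2) s t * qv (q 3) s t * qv (q 4) s t := rfl
    have e2 : phi q s t 2 = qv (q 0) s t * qv (q 1) s t * qv (q 3) s t * qv (q 4) s t := rfl
    have e3 : phi q s t 3 = qv (q 0) s t * qv (q 1) s t * qv (q 2) s t * qv (q 4) s t := rfl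
    have e4 : phi q s t 4 = qv (q 0) s t * qv (q 1) s t * qv (q 2) s t * qv (q 3) s t := rfl
    unfold quad
    rw [e0, e1, e2, e3, e4]
    generalize qv (q 0) s t = a0
    generalize qv (q 1) s t = a1
    generalize qv (q 2) s t = a2
    generalize qv (q 3) s t = a3
    generalize qv (q 4) s t = a4
    ring
  rw [h1]
  have h2 : ∀ e, rel q c e = 0 := h
  simp only [rel] at h2
  have g0 := h2 0
  have g1 := h2 1
  have g2 := h2 2
  have g3 := h2 3
  have g4 := h2 4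
  have g5 := h2 5
  have g6 := h2 6
  rw [cub_eval, cub_eval, cub_eval, cub_eval, cub_eval, cub_eval, cub_eval, cub_eval, cub_eval,
    cub_eval]
  have c0 : ∀ e, col q 0 e = cub (q 2) (q 3) (q 4) e := fun _ => rfl
  have c1 : ∀ e, col q 1 e = cub (q 1) (q 3) (q 4) e := fun _ => rfl
  have c2 : ∀ e, col q 2 e = cub (q 1) (q 2) (q 4) e := fun _ => rfl
  have c3 : ∀ e, col q 3 e = cub (q 1) (q 2) (q 3) e := fun _ => rfl
  have c4 : ∀ e, col q 4 e = cub (q 0) (q 3) (q 4) e := fun _ => rfl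
  have c5 : ∀ e, col q 5 e = cub (q 0) (q 2) (q 4) e := fun _ => rfl
  have c6 : ∀ e, col q 6 e = cub (q 0) (q 2) (q 3) e := fun _ => rfl
  have c7 : ∀ e, col q 7 e = cub (q 0) (q 1) (q 4) e := fun _ => rfl
  have c8 : ∀ e, col q 8 e = cub (q 0) (q 1) (q 3) e := fun _ => rfl
  have c9 : ∀ e, col q 9 e = cub (q 0) (q 1) (q 2) e := fun _ => rfl
  simp only [c0, c1, c2, c3, c4, c5, c6, c7, c8, c9] at g0 g1 g2 g3 g4 g5 g6
  refine mul_eq_zero_of_right _ ?_
  linear_combination s ^ 6 * g0 + (s ^ 5 * t) * g1 + (s ^ 4 * t ^ 2) * g2 +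
    (s ^ 3 * t ^ 3) * g3 + (s ^ 2 * t ^ 4) * g4 + (s * t ^ 5) * g5 + t ^ 6 * g6

/-- a linear form in the first five variables -/
def lf5 (a : Fin 5 → S) (x : Fin 6 → S) : S :=
  a 0 * x 0 + a 1 * x 1 + a 2 * x 2 + a 3 * x 3 + a 4 * x 4

/-- a linear form in six variables -/
def lf6 (a : Fin 6 → S) (x : Fin 6 → S) : S :=
  a 0 * x 0 + a 1 * x 1 + a 2 * x 2 + a 3 * x 3 + a 4 * x 4 + a 5 * x 5

/-- one quadric of the family -/
def FF (X : Fin 5 → Fin 5 → S) (a : Fin 5 → S) (L : Fin 6 → S) (c : Fin 10 → S)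
    (x : Fin 6 → S) : S :=
  quad c (fun j => lf5 (X j) x) + (x 5 - lf5 a x) * lf6 L x

end

section Maps

variable {S S' : Type} [CommRing S] [CommRing S'] (f : S →+* S')

theorem map_cub (a b c : Fin 3 → S) (e : Fin 7) :
    f (cub a b c e) = cub (fun i => f (a i)) (fun i => f (b i)) (fun i => f (c i)) e := by
  fin_cases e <;> simp [cub]

theorem map_col (q : Fin 5 → Fin 3 → S) (π : Fin 10) (e : Fin 7) :
    f (col q π e) = col (fun i b => f (q i b)) π e := by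
  fin_cases π <;> exact map_cub f _ _ _ e

theorem map_M7 (q : Fin 5 → Fin 3 → S) : f.mapMatrix (M7 q) = M7 fun i b => f (q i b) := by
  ext e j
  exact map_col f q _ e

theorem map_N3 (q : Fin 5 → Fin 3 → S) (v : Fin 3 → S) (e : Fin 7) :
    f ((N3 q *ᵥ v) e) = (N3 (fun i b => f (q i b)) *ᵥ fun j => f (v j)) e := by
  rw [N3_apply, N3_apply]
  simp only [map_add, map_mul, map_col]

theorem map_ub (q : Fin 5 → Fin 3 → S) (v : Fin 3 → S) (j : Fin 7) :
    f (ub q v j) = ub (fun i b => f (q i b)) (fun j => f (v j)) j := by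
  change f (-(∑ e, (M7 q).adjugate j e * (N3 q *ᵥ v) e)) =
    -(∑ e, (M7 fun i b => f (q i b)).adjugate j e *
      (N3 (fun i b => f (q i b)) *ᵥ fun j => f (v j)) e)
  rw [map_neg, map_sum, ← map_M7, ← RingHom.map_adjugate]
  congr 1
  refine Finset.sum_congr rfl fun e _ => ?_
  rw [map_mul, map_N3]
  rfl

theorem map_cpar (q : Fin 5 → Fin 3 → S) (v : Fin 3 → S) (π : Fin 10) :
    f (cpar q v π) = cpar (fun i b => f (q i b)) (fun j => f (v j)) π := by
  have hd : ∀ j, f ((M7 q).det * v j) = (M7 fun i b => f (q i b)).det * f (v j) := by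
    intro j
    rw [map_mul, RingHom.map_det, map_M7]
  fin_cases π
  · exact hd 0
  · exact map_ub f q v 0
  · exact hd 1
  · exact map_ub f q v 1
  · exact hd 2
  · exact map_ub f q v 2
  · exact map_ub f q v 3
  · exact map_ub f q v 4
  · exact map_ub f q v 5
  · exact map_ub f q v 6

theorem map_FF (X : Fin 5 → Fin 5 → S) (a : Fin 5 → S) (L : Fin 6 → S) (c : Fin 10 → S)
    (x : Fin 6 → S) : f (FF X a L c x) =
      FF (fun j l => f (X j l)) (fun l => f (a l)) (fun i => f (L i)) (fun π => f (c π))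
        (fun i => f (x i)) := by
  simp only [FF, quad, lf5, lf6, map_add, map_sub, map_mul]

end Maps

end Pool.Agent.LX.H87.K222
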