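import Pool.Agent.Lib.MP_c7af3c_ag.LX.H87.K222Num

/-!
# The K3 surfaces (2,2,2): the Jacobian at a special point, continued
-/

set_option autoImplicit false
set_option linter.unusedSimpArgs false

namespace Pool.Agent.LX.H87.K222

open MvPolynomial TrivSqZeroExt Pool.Agent.LX.H95

theorem det_ne : (M7 q0).det ≠ 0 := by
  intro h
  obtain ⟨u, hu, h0⟩ := Matrix.exists_mulVec_eq_zero_iff.2 h
  apply hu
  have h1 : ∀ e, rel q0 ![0, u 0, 0, u 1, 0, u 2, u 3, u 4, u 5, u 6] e = 0 := by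
    intro e
    have h2 := congrFun h0 e
    rw [M7_apply] at h2
    unfold rel
    change col q0 0 e * 0 + col q0 1 e * u 0 + col q0 2 e * 0 + col q0 3 e * u 1 +
      col q0 4 e * 0 + col q0 5 e * u 2 + col q0 6 e * u 3 + col q0 7 e * u 4 +
      col q0 8 e * u 5 + col q0 9 e * u 6 = 0
    have h3 : (0 : Fin 7 → ℚ) e = 0 := rfl
    rw [h3] at h2
    linear_combination h2
  have r0 := h1 0
  have r1 := h1 1
  have r2 := h1 2
  have r3 := h1 3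
  have r4 := h1 4
  have r5 := h1 5
  have r6 := h1 6
  rw [relq0] at r0
  rw [relq1] at r1
  rw [relq2] at r2
  rw [relq3] at r3
  rw [relq4] at r4
  rw [relq5] at r5
  rw [relq6] at r6
  simp only [Matrix.cons_val] at r0 r1 r2 r3 r4 r5 r6
  funext j
  change u j = 0
  fin_cases j
  · change u 0 = 0
    linarith
  · change u 1 = 0
    linarith
  · change u 2 = 0
    linarith
  · change u 3 = 0
    linarith
  · change u 4 = 0
    linarith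
  · change u 5 = 0
    linarith
  · change u 6 = 0
    linarith

theorem half_two_n (n : ℕ) : (C (1 / 2 : ℚ) : MvPolynomial (Fin n) ℚ) * 2 = 1 := by
  have h : (2 : MvPolynomial (Fin n) ℚ) = C 2 := (map_ofNat C 2).symm
  rw [h, ← C_mul, ← C_1]
  norm_num

/-- a quadratic form as a sum -/
theorem exists_quad {n : ℕ} (T : MvPolynomial (Fin n) ℚ) (hT : T.IsHomogeneous 2) :
    ∃ g : Fin n → Fin n → ℚ, T = ∑ i, ∑ j, C (g i j) * (X i * X j) := by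
  have h1 := hT.sum_X_mul_pderiv
  have h2 : ∀ i, (pderiv i T).IsHomogeneous 1 := fun i => hT.pderiv
  have h3 : ∀ i, ∑ j, X j * pderiv j (pderiv i T) = pderiv i T := by
    intro i
    have := (h2 i).sum_X_mul_pderiv
    rw [one_smul] at this
    exact this
  have h4 : ∀ i j, ∃ a : ℚ, pderiv j (pderiv i T) = C a := by
    intro i j
    have h5 : (pderiv j (pderiv i T)).IsHomogeneous 0 := (h2 i).pderiv
    exact ⟨_, totalDegree_eq_zero_iff_eq_C.1 ((totalDegree_zero_iff_isHomogeneous _).2 h5)⟩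
  choose a ha using h4
  refine ⟨fun i j => (1 / 2) * a i j, ?_⟩
  have h5 : T = C (1 / 2 : ℚ) * (2 • T) := by
    rw [nsmul_eq_mul, ← mul_assoc, Nat.cast_ofNat, half_two_n, one_mul]
  rw [h5, ← h1, Finset.mul_sum]
  refine Finset.sum_congr rfl fun i _ => ?_
  rw [← h3 i, Finset.mul_sum, Finset.mul_sum]
  refine Finset.sum_congr rfl fun j _ => ?_
  rw [ha, map_mul]
  ring

section

variable {S : Type} [CommRing S]

/-- the derivative of the quadratic form in the direction of the variables -/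
def dquad (c : Fin 10 → S) (y dy : Fin 5 → S) : S :=
  c 0 * (y 0 * dy 1 + dy 0 * y 1) + c 1 * (y 0 * dy 2 + dy 0 * y 2) +
    c 2 * (y 0 * dy 3 + dy 0 * y 3) + c 3 * (y 0 * dy 4 + dy 0 * y 4) +
    c 4 * (y 1 * dy 2 + dy 1 * y 2) + c 5 * (y 1 * dy 3 + dy 1 * y 3) +
    c 6 * (y 1 * dy 4 + dy 1 * y 4) + c 7 * (y 2 * dy 3 + dy 2 * y 3) +
    c 8 * (y 2 * dy 4 + dy 2 * y 4) + c 9 * (y 3 * dy 4 + dy 3 * y 4)

theorem du_quad (c dc : Fin 10 → S) (y dy : Fin 5 → S) :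
    quad (fun π => du (c π) (dc π)) (fun j => du (y j) (dy j)) =
      du (quad c y) (quad dc y + dquad c y dy) := by
  unfold quad dquad
  simp only [du_mul, du_add]
  congr 1
  ring

theorem du_lf5 (a da : Fin 5 → S) (x : Fin 6 → S) :
    lf5 (fun j => du (a j) (da j)) (fun i => du (x i) 0) = du (lf5 a x) (lf5 da x) := by
  unfold lf5
  simp only [du_mul, du_add]
  congr 1
  ring

theorem du_lf6 (a da : Fin 6 → S) (x : Fin 6 → S) :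
    lf6 (fun j => du (a j) (da j)) (fun i => du (x i) 0) = du (lf6 a x) (lf6 da x) := by
  unfold lf6
  simp only [du_mul, du_add]
  congr 1
  ring

theorem du_FF (A dA : Fin 5 → Fin 5 → S) (a da : Fin 5 → S) (L dL : Fin 6 → S)
    (c dc : Fin 10 → S) (x : Fin 6 → S) :
    FF (fun j l => du (A j l) (dA j l)) (fun l => du (a l) (da l)) (fun i => du (L i) (dL i))
      (fun π => du (c π) (dc π)) (fun i => du (x i) 0) =
      du (FF A a L c x) (quad dc (fun j => lf5 (A j) x) +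
        dquad c (fun j => lf5 (A j) x) (fun j => lf5 (dA j) x) +
        ((x 5 - lf5 a x) * lf6 dL x - lf5 da x * lf6 L x)) := by
  unfold FF
  simp only [du_lf5, du_lf6, du_quad, du_mul, du_sub, du_add]
  congr 1
  ring

end

/-- the value of the derivative of the family at the special point -/
noncomputable def dFF (r : Fin 3) (dX : Fin 5 → Fin 5 → ℚ) (dA : Fin 5 → ℚ) (dL : Fin 6 → ℚ)
    (dc : Fin 10 → ℚ) : Sq 6 :=
  quad (fun π => C (dc π)) (fun j => lf5 (fun l => C (if l = j then 1 else 0)) (fun i => X i)) +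
    dquad (fun π => C (c0 r π)) (fun j => lf5 (fun l => C (if l = j then 1 else 0)) (fun i => X i))
      (fun j => lf5 (fun l => C (dX j l)) (fun i => X i)) +
    ((X 5 - lf5 (fun _ => C 0) (fun i => X i)) * lf6 (fun i => C (dL i)) (fun i => X i) -
      lf5 (fun l => C (dA l)) (fun i => X i) * lf6 (fun i => C (L0 r i)) (fun i => X i))

theorem lf5_one (j : Fin 5) : lf5 (fun l => C (if l = j then 1 else 0)) (fun i => (X i : Sq 6)) =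
    X (j.castSucc) := by
  fin_cases j <;> simp [lf5]

theorem lf5_zero : lf5 (fun _ => C 0) (fun i => (X i : Sq 6)) = 0 := by
  simp [lf5]

theorem exists_dir (T : Fin 3 → Sq 6) (hT : ∀ r, (T r).IsHomogeneous 2) :
    ∃ (dX : Fin 5 → Fin 5 → ℚ) (dA : Fin 5 → ℚ) (dL : Fin 3 → Fin 6 → ℚ)
      (dc : Fin 3 → Fin 10 → ℚ),
      (dc 0 5 = 0 ∧ dc 0 6 = 0 ∧ dc 0 7 = 0 ∧ dc 0 8 = 0 ∧
        dc 1 5 = 0 ∧ dc 1 6 = 0 ∧ dc 1 7 = 0 ∧ dc 1 8 = 0 ∧ dc 2 0 = dc 2 1 ∧ dc 2 2 = dc 2 3) ∧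
      ∀ r, dFF r dX dA (dL r) (dc r) = T r := by
  have hg := fun r => exists_quad (T r) (hT r)
  choose g hg using hg
  -- the unknowns
  obtain ⟨α0, hα0⟩ : ∃ a, a = -g 2 0 0 := ⟨_, rfl⟩
  obtain ⟨α1, hα1⟩ : ∃ a, a = -g 1 1 1 := ⟨_, rfl⟩
  obtain ⟨α2, hα2⟩ : ∃ a, a = -g 1 2 2 := ⟨_, rfl⟩
  obtain ⟨α3, hα3⟩ : ∃ a, a = -g 0 3 3 := ⟨_, rfl⟩
  obtain ⟨α4, hα4⟩ : ∃ a, a = -g 0 4 4 := ⟨_, rfl⟩
  obtain ⟨x21, h21⟩ : ∃ a, a = g 2 1 1 := ⟨_, rfl⟩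
  obtain ⟨x12, h12⟩ : ∃ a, a = g 2 2 2 := ⟨_, rfl⟩
  obtain ⟨x43, h43⟩ : ∃ a, a = g 2 3 3 := ⟨_, rfl⟩
  obtain ⟨x34, h34⟩ : ∃ a, a = g 2 4 4 := ⟨_, rfl⟩
  obtain ⟨x01, h01⟩ : ∃ a, a = g 0 1 1 - x21 := ⟨_, rfl⟩
  obtain ⟨x02, h02⟩ : ∃ a, a = g 0 2 2 - x12 := ⟨_, rfl⟩
  obtain ⟨x03, h03⟩ : ∃ a, a = g 1 3 3 - x43 := ⟨_, rfl⟩
  obtain ⟨x04, h04⟩ : ∃ a, a = g 1 4 4 - x34 := ⟨_, rfl⟩
  obtain ⟨x20, h20⟩ : ∃ a, 2 * a = g 0 0 0 + (g 2 0 1 + g 2 1 0) - (g 2 0 2 + g 2 2 0) + α1 - α2 :=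
    ⟨(g 0 0 0 + (g 2 0 1 + g 2 1 0) - (g 2 0 2 + g 2 2 0) + α1 - α2) / 2, by ring⟩
  obtain ⟨x10, h10⟩ : ∃ a, a = g 0 0 0 - x20 := ⟨_, rfl⟩
  obtain ⟨x40, h40⟩ : ∃ a, 2 * a = g 1 0 0 + (g 2 0 3 + g 2 3 0) - (g 2 0 4 + g 2 4 0) + α3 - α4 :=
    ⟨(g 1 0 0 + (g 2 0 3 + g 2 3 0) - (g 2 0 4 + g 2 4 0) + α3 - α4) / 2, by ring⟩
  obtain ⟨x30, h30⟩ : ∃ a, a = g 1 0 0 - x40 := ⟨_, rfl⟩
  obtain ⟨x23, h23⟩ : ∃ a, a = (g 0 1 3 + g 0 3 1) - x03 + α1 := ⟨_, rfl⟩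
  obtain ⟨x24, h24⟩ : ∃ a, a = (g 0 1 4 + g 0 4 1) - x04 + α1 := ⟨_, rfl⟩
  obtain ⟨x13, h13⟩ : ∃ a, a = (g 0 2 3 + g 0 3 2) - x03 + α2 := ⟨_, rfl⟩
  obtain ⟨x14, h14⟩ : ∃ a, a = (g 0 2 4 + g 0 4 2) - x04 + α2 := ⟨_, rfl⟩
  obtain ⟨x41, h41⟩ : ∃ a, a = (g 1 1 3 + g 1 3 1) - x01 + α3 := ⟨_, rfl⟩
  obtain ⟨x31, h31⟩ : ∃ a, a = (g 1 1 4 + g 1 4 1) - x01 + α4 := ⟨_, rfl⟩
  obtain ⟨x42, h42⟩ : ∃ a, a = (g 1 2 3 + g 1 3 2) - x02 + α3 := ⟨_, rfl⟩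
  obtain ⟨x32, h32⟩ : ∃ a, a = (g 1 2 4 + g 1 4 2) - x02 + α4 := ⟨_, rfl⟩
  refine ⟨![![0, x01, x02, x03, x04], ![x10, 0, x12, x13, x14], ![x20, x21, 0, x23, x24],
      ![x30, x31, x32, 0, x34], ![x40, x41, x42, x43, 0]], ![α0, α1, α2, α3, α4],
    fun r => ![g r 0 5 + g r 5 0, g r 1 5 + g r 5 1, g r 2 5 + g r 5 2, g r 3 5 + g r 5 3,
      g r 4 5 + g r 5 4, g r 5 5],
    ![![(g 0 0 1 + g 0 1 0) - (x21 + x20), (g 0 0 2 + g 0 2 0) - (x12 + x10),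
        (g 0 0 3 + g 0 3 0) - (x13 + x23 - α0), (g 0 0 4 + g 0 4 0) - (x14 + x24 - α0),
        (g 0 1 2 + g 0 2 1) - (x02 + x01), 0, 0, 0, 0, (g 0 3 4 + g 0 4 3) + α3 + α4],
      ![(g 1 0 1 + g 1 1 0) - (x31 + x41 - α0), (g 1 0 2 + g 1 2 0) - (x32 + x42 - α0),
        (g 1 0 3 + g 1 3 0) - (x43 + x40), (g 1 0 4 + g 1 4 0) - (x34 + x30),
        (g 1 1 2 + g 1 2 1) + α1 + α2, 0, 0, 0, 0, (g 1 3 4 + g 1 4 3) - (x04 + x03)],
      ![(g 2 0 1 + g 2 1 0) - (x20 - α1), (g 2 0 2 + g 2 2 0) - (x10 - α2),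
        (g 2 0 3 + g 2 3 0) - (x40 - α3), (g 2 0 4 + g 2 4 0) - (x30 - α4),
        g 2 1 2 + g 2 2 1, (g 2 1 3 + g 2 3 1) - (x23 + x41), (g 2 1 4 + g 2 4 1) - (x24 + x31),
        (g 2 2 3 + g 2 3 2) - (x13 + x42), (g 2 2 4 + g 2 4 2) - (x14 + x32),
        g 2 3 4 + g 2 4 3]], ⟨rfl, rfl, rfl, rfl, rfl, rfl, rfl, rfl, ?_, ?_⟩, fun r => ?_⟩
  · change (g 2 0 1 + g 2 1 0) - (x20 - α1) = (g 2 0 2 + g 2 2 0) - (x10 - α2)
    linear_combination -h20 + h10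
  · change (g 2 0 3 + g 2 3 0) - (x40 - α3) = (g 2 0 4 + g 2 4 0) - (x30 - α4)
    linear_combination -h40 + h30
  · rw [hg r]
    unfold dFF
    simp only [lf5_one, lf5_zero, Fin.sum_univ_six]
    have e0 : (Fin.castSucc (0 : Fin 5)) = 0 := rfl
    have e1 : (Fin.castSucc (1 : Fin 5)) = 1 := rfl
    have e2 : (Fin.castSucc (2 : Fin 5)) = 2 := rfl
    have e3 : (Fin.castSucc (3 : Fin 5)) = 3 := rfl
    have e4 : (Fin.castSucc (4 : Fin 5)) = 4 := rfl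
    subst hα0 hα1 hα2 hα3 hα4 h21 h12 h43 h34 h01 h02 h03 h04 h10 h30 h23 h24 h13 h14 h41 h31 h42
      h32
    clear h20 h40 hg hT
    fin_cases r
    · simp only [Fin.zero_eta, quad, dquad, lf5, lf6, c0, L0, Matrix.cons_val, e0, e1, e2, e3, e4,
        map_add, map_sub, map_neg, map_zero, map_one]
      ring
    · simp only [Fin.mk_one, quad, dquad, lf5, lf6, c0, L0, Matrix.cons_val, e0, e1, e2, e3, e4,
        map_add, map_sub, map_neg, map_zero, map_one]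
      ring
    · simp only [Fin.reduceFinMk, quad, dquad, lf5, lf6, c0, L0, Matrix.cons_val, e0, e1, e2, e3,
        e4, map_add, map_sub, map_neg, map_zero, map_one]
      ring

end Pool.Agent.LX.H87.K222
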