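import Pool.Agent.Lib.MP_c7af3c_ag.LX.H87.K222Dir

/-!
# The K3 surfaces (2,2,2): the coefficients of the family are algebraically independent
-/

set_option autoImplicit false
set_option linter.unusedSimpArgs false

namespace Pool.Agent.LX.H87.K222

open MvPolynomial TrivSqZeroExt Pool.Agent.LX.H95

/-- the parameters -/
abbrev Sg : Type :=
  (Fin 5 × Fin 5) ⊕ (Fin 5 ⊕ ((Fin 3 × Fin 6) ⊕ ((Fin 5 × Fin 3) ⊕ (Fin 3 × Fin 3))))

/-- the parameter point from its parts -/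
def mk {S : Type} (A : Fin 5 → Fin 5 → S) (a : Fin 5 → S) (L : Fin 3 → Fin 6 → S)
    (q : Fin 5 → Fin 3 → S) (v : Fin 3 → Fin 3 → S) : Sg → S :=
  Sum.elim (fun s => A s.1 s.2) (Sum.elim a (Sum.elim (fun s => L s.1 s.2)
    (Sum.elim (fun s => q s.1 s.2) fun s => v s.1 s.2)))

/-- names of the parameters -/
abbrev sX (j l : Fin 5) : Sg := Sum.inl (j, l)
abbrev sA (l : Fin 5) : Sg := Sum.inr (Sum.inl l)
abbrev sL (r : Fin 3) (i : Fin 6) : Sg := Sum.inr (Sum.inr (Sum.inl (r, i)))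
abbrev sQ (i : Fin 5) (b : Fin 3) : Sg := Sum.inr (Sum.inr (Sum.inr (Sum.inl (i, b))))
abbrev sV (r j : Fin 3) : Sg := Sum.inr (Sum.inr (Sum.inr (Sum.inr (r, j))))

/-- a quadric of the family -/
def GG {S : Type} [CommRing S] (r : Fin 3) (z : Sg → S) (x : Fin 6 → S) : S :=
  FF (fun j l => z (sX j l)) (fun l => z (sA l)) (fun i => z (sL r i))
    (cpar (fun i b => z (sQ i b)) (fun j => z (sV r j))) x

theorem map_GG {S S' : Type} [CommRing S] [CommRing S'] (f : S →+* S') (r : Fin 3) (z : Sg → S)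
    (x : Fin 6 → S) : f (GG r z x) = GG r (fun s => f (z s)) (fun i => f (x i)) := by
  unfold GG
  rw [map_FF]
  congr 1
  funext π
  exact map_cpar f _ _ π

/-- the generic quadric of the family -/
noncomputable def G (r : Fin 3) : MvPolynomial (Fin 6) (MvPolynomial Sg ℚ) :=
  GG r (fun s => C (X s)) (fun i => X i)

theorem dC_du (a b : ℚ) : dC 6 (du a b) = du (C a) (C b) := by
  refine TrivSqZeroExt.ext ?_ ?_
  · rw [dC_fst, fst_du, fst_du]
  · rw [dC_snd, snd_du, snd_du]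

theorem fst_ring (x : DualNumber ℚ) :
    x.fst = (fstHom ℚ ℚ ℚ : DualNumber ℚ →ₐ[ℚ] ℚ).toRingHom x := rfl

/-- the coefficients of the three generic quadrics are algebraically independent -/
theorem indep : AlgebraicIndependent ℚ (fun s : Fin 3 × Ex 6 2 => coeff s.2.1 (G s.1)) := by
  set δ0 : ℚ := (M7 q0).det⁻¹ with hδ0
  refine H87.jac _ (mk (fun j l => if l = j then 1 else 0) (fun _ => 0) L0 q0
    (fun r => ![δ0 * c0 r 0, δ0 * c0 r 2, δ0 * c0 r 4])) fun τ => ?_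
  obtain ⟨dX, dA, dL, dc, ⟨a5, a6, a7, a8, b5, b6, b7, b8, g0, g2⟩, hT⟩ :=
    exists_dir (fun r => fm fun μ => τ (r, μ)) (fun r => fm_hom _)
  obtain ⟨dq, hdq⟩ := exists_dq dc a5 a6 a7 a8 b5 b6 b7 b8 g0 g2
  -- the inverse of the determinant
  set qD : Fin 5 → Fin 3 → DualNumber ℚ := fun i b => du (q0 i b) (dq i b) with hqD
  have hq0 : (fun i b => (fstHom ℚ ℚ ℚ : DualNumber ℚ →ₐ[ℚ] ℚ).toRingHom (qD i b)) = q0 := by
    funext i b
    have h2 : (qD i b).fst = q0 i b := by rw [hqD, fst_du]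
    exact h2
  have hfst : (M7 qD).det.fst = (M7 q0).det := by
    rw [fst_ring, RingHom.map_det, map_M7, hq0]
  have hu : IsUnit (M7 qD).det := by
    rw [TrivSqZeroExt.isUnit_iff_isUnit_fst, hfst]
    exact det_ne.isUnit
  obtain ⟨δ, hδ⟩ : ∃ δ, (M7 qD).det * δ = 1 := by
    obtain ⟨u, hu⟩ := hu
    exact ⟨(↑u⁻¹ : DualNumber ℚ), by rw [← hu, Units.mul_inv]⟩
  have hδf : δ.fst = δ0 := by
    have h1 := congrArg TrivSqZeroExt.fst hδ
    rw [TrivSqZeroExt.fst_mul, hfst, TrivSqZeroExt.fst_one] at h1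
    rw [hδ0]
    exact eq_inv_of_mul_eq_one_right h1
  have hcp : ∀ r, cpar qD ![δ * du (c0 r 0) (dc r 0), δ * du (c0 r 2) (dc r 2),
      δ * du (c0 r 4) (dc r 4)] = fun π => du (c0 r π) (dc r π) := fun r =>
    cpar_of_rel qD δ hδ _ (hdq r)
  set vD : Fin 3 → Fin 3 → DualNumber ℚ := fun r => ![δ * du (c0 r 0) (dc r 0),
    δ * du (c0 r 2) (dc r 2), δ * du (c0 r 4) (dc r 4)] with hvD
  have hvf : ∀ r j, (vD r j).fst = (![δ0 * c0 r 0, δ0 * c0 r 2, δ0 * c0 r 4] : Fin 3 → ℚ) j := by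
    intro r j
    fin_cases j
    · change (δ * du (c0 r 0) (dc r 0)).fst = δ0 * c0 r 0
      rw [TrivSqZeroExt.fst_mul, fst_du, hδf]
    · change (δ * du (c0 r 2) (dc r 2)).fst = δ0 * c0 r 2
      rw [TrivSqZeroExt.fst_mul, fst_du, hδf]
    · change (δ * du (c0 r 4) (dc r 4)).fst = δ0 * c0 r 4
      rw [TrivSqZeroExt.fst_mul, fst_du, hδf]
  refine ⟨mk dX dA dL dq fun r j => (vD r j).snd, ?_⟩
  rintro ⟨r, μ⟩
  rw [← Psi_snd]
  change coeff μ.1 (Psi 6 _ _ (G r)).snd = _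
  unfold G
  rw [map_GG]
  unfold GG
  simp only [Psi_X]
  set p := mk (fun j l => if l = j then 1 else 0) (fun _ => 0) L0 q0
    (fun r => ![δ0 * c0 r 0, δ0 * c0 r 2, δ0 * c0 r 4]) with hp
  set v := mk dX dA dL dq fun r j => (vD r j).snd with hv
  have hP : ∀ s, Psi 6 p v (C (X s)) = dC 6 (du (p s) (v s)) := by
    intro s
    rw [Psi_CX, dC_du]
    rfl
  have hV : ∀ j, du (p (sV r j)) (v (sV r j)) = vD r j := by
    intro j
    refine TrivSqZeroExt.ext ?_ ?_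
    · rw [fst_du, hvf]
      rfl
    · rw [snd_du]
      rfl
  have hc : (cpar (fun i b => Psi 6 p v (C (X (sQ i b)))) fun j => Psi 6 p v (C (X (sV r j)))) =
      fun π => du (C (c0 r π)) (C (dc r π)) := by
    funext π
    simp only [hP, hV]
    have h1 := map_cpar (dC 6) qD (vD r) π
    have h2 : (fun i b => dC 6 (du (p (sQ i b)) (v (sQ i b)))) = fun i b => dC 6 (qD i b) := rfl
    rw [h2, ← h1, hcp, dC_du]
  rw [hc]
  have hX : (fun j l => Psi 6 p v (C (X (sX j l)))) =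
      fun j l => du (C (if l = j then 1 else 0)) (C (dX j l)) := by
    funext j l
    rw [hP, dC_du]
    rfl
  have hA : (fun l => Psi 6 p v (C (X (sA l)))) = fun l => du (C 0) (C (dA l)) := by
    funext l
    rw [hP, dC_du]
    rfl
  have hL : (fun i => Psi 6 p v (C (X (sL r i)))) = fun i => du (C (L0 r i)) (C (dL r i)) := by
    funext i
    rw [hP, dC_du]
    rfl
  have hx : (fun i : Fin 6 => (inl (X i) : DualNumber (Sq 6))) = fun i => du (X i) 0 := by
    funext i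
    unfold du
    rw [TrivSqZeroExt.inr_zero, add_zero]
  rw [hX, hA, hL, hx, du_FF, snd_du]
  have h3 := hT r
  unfold dFF at h3
  rw [h3, coeff_fm]

end Pool.Agent.LX.H87.K222
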