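import Pool.Agent.Lib.MP_c7af3c_ag.LX.H87.K222Alg
import Pool.Agent.Lib.MP_c7af3c_ag.LX.H95.Fm

/-!
# The K3 surfaces (2,2,2): the Jacobian at a special point
-/

set_option autoImplicit false

namespace Pool.Agent.LX.H87.K222

open MvPolynomial TrivSqZeroExt Pool.Agent.LX.H95

/-- a dual number -/
def du {S : Type} [CommRing S] (a b : S) : DualNumber S := inl a + inr b

section

variable {S : Type} [CommRing S]

@[simp] theorem fst_du (a b : S) : (du a b).fst = a := by
  simp [du]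

@[simp] theorem snd_du (a b : S) : (du a b).snd = b := by
  simp [du]

theorem du_add (a b c d : S) : du a b + du c d = du (a + c) (b + d) := by
  ext <;> simp

theorem du_sub (a b c d : S) : du a b - du c d = du (a - c) (b - d) := by
  ext <;> simp

theorem du_mul (a b c d : S) : du a b * du c d = du (a * c) (a * d + b * c) := by
  ext
  · simp
  · simp

theorem du_cub (a da b db c dc : Fin 3 → S) (e : Fin 7) :
    cub (fun i => du (a i) (da i)) (fun i => du (b i) (db i)) (fun i => du (c i) (dc i)) e =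
      du (cub a b c e) (cub da b c e + cub a db c e + cub a b dc e) := by
  fin_cases e
  · change du _ _ * du _ _ * du _ _ = du (a 0 * b 0 * c 0)
      (da 0 * b 0 * c 0 + a 0 * db 0 * c 0 + a 0 * b 0 * dc 0)
    simp only [du_mul]
    congr 1
    ring
  · change du _ _ * du _ _ * du _ _ + du _ _ * du _ _ * du _ _ + du _ _ * du _ _ * du _ _ =
      du (a 0 * b 0 * c 1 + a 0 * b 1 * c 0 + a 1 * b 0 * c 0)
      ((da 0 * b 0 * c 1 + da 0 * b 1 * c 0 + da 1 * b 0 * c 0) +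
      (a 0 * db 0 * c 1 + a 0 * db 1 * c 0 + a 1 * db 0 * c 0) +
      (a 0 * b 0 * dc 1 + a 0 * b 1 * dc 0 + a 1 * b 0 * dc 0))
    simp only [du_mul, du_add]
    congr 1
    ring
  · simp only [cub, Matrix.cons_val, du_mul, du_add, Fin.reduceFinMk]
    congr 1
    ring
  · simp only [cub, Matrix.cons_val, du_mul, du_add, Fin.reduceFinMk]
    congr 1
    ring
  · simp only [cub, Matrix.cons_val, du_mul, du_add, Fin.reduceFinMk]
    congr 1
    ring
  · simp only [cub, Matrix.cons_val, du_mul, du_add, Fin.reduceFinMk]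
    congr 1
    ring
  · simp only [cub, Matrix.cons_val, du_mul, du_add, Fin.reduceFinMk]
    congr 1
    ring

/-- the derivative of a product of three forms -/
def dcub (a da b db c dc : Fin 3 → S) (e : Fin 7) : S :=
  cub da b c e + cub a db c e + cub a b dc e

/-- the derivatives of the ten products -/
def dcol (q dq : Fin 5 → Fin 3 → S) : Fin 10 → Fin 7 → S :=
  ![dcub (q 2) (dq 2) (q 3) (dq 3) (q 4) (dq 4), dcub (q 1) (dq 1) (q 3) (dq 3) (q 4) (dq 4),
    dcub (q 1) (dq 1) (q 2) (dq 2) (q 4) (dq 4), dcub (q 1) (dq 1) (q 2) (dq 2) (q 3) (dq 3),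
    dcub (q 0) (dq 0) (q 3) (dq 3) (q 4) (dq 4), dcub (q 0) (dq 0) (q 2) (dq 2) (q 4) (dq 4),
    dcub (q 0) (dq 0) (q 2) (dq 2) (q 3) (dq 3), dcub (q 0) (dq 0) (q 1) (dq 1) (q 4) (dq 4),
    dcub (q 0) (dq 0) (q 1) (dq 1) (q 3) (dq 3), dcub (q 0) (dq 0) (q 1) (dq 1) (q 2) (dq 2)]

theorem du_col (q dq : Fin 5 → Fin 3 → S) (π : Fin 10) (e : Fin 7) :
    col (fun i b => du (q i b) (dq i b)) π e = du (col q π e) (dcol q dq π e) := by
  fin_cases π <;> exact du_cub _ _ _ _ _ _ e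

/-- the derivative of the relation -/
def drel (q dq : Fin 5 → Fin 3 → S) (c dc : Fin 10 → S) (e : Fin 7) : S :=
  rel q dc e + (dcol q dq 0 e * c 0 + dcol q dq 1 e * c 1 + dcol q dq 2 e * c 2 +
    dcol q dq 3 e * c 3 + dcol q dq 4 e * c 4 + dcol q dq 5 e * c 5 + dcol q dq 6 e * c 6 +
    dcol q dq 7 e * c 7 + dcol q dq 8 e * c 8 + dcol q dq 9 e * c 9)

theorem du_rel (q dq : Fin 5 → Fin 3 → S) (c dc : Fin 10 → S) (e : Fin 7) :
    rel (fun i b => du (q i b) (dq i b)) (fun π => du (c π) (dc π)) e =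
      du (rel q c e) (drel q dq c dc e) := by
  unfold rel
  simp only [du_col, du_mul, du_add]
  congr 1
  unfold drel rel
  ring

end

/-- the special binary forms -/
def q0 : Fin 5 → Fin 3 → ℚ :=
  ![![-1, 0, -1], ![1, 1, 0], ![0, -1, 1], ![0, 1, 1], ![1, -1, 0]]

/-- the special net -/
def c0 : Fin 3 → Fin 10 → ℚ :=
  ![![1, 1, 0, 0, 1, 0, 0, 0, 0, 0], ![0, 0, 1, 1, 0, 0, 0, 0, 0, 1],
    ![0, 0, 0, 0, 1, 0, 0, 0, 0, 1]]

/-- the special linear forms -/
def L0 : Fin 3 → Fin 6 → ℚ :=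
  ![![0, 0, 0, 1, 1, 0], ![0, 1, 1, 0, 0, 0], ![1, 0, 0, 0, 0, 0]]

end Pool.Agent.LX.H87.K222
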