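import Pool.Agent.Lib.MP_c7af3c_ag.LX.H87.K222Jac

/-!
# The K3 surfaces (2,2,2): the linear algebra at the special point
-/

set_option autoImplicit false
set_option linter.unusedSimpArgs false

namespace Pool.Agent.LX.H87.K222

theorem q00 : q0 0 0 = -1 := rfl
theorem q01 : q0 0 1 = 0 := rfl
theorem q02 : q0 0 2 = -1 := rfl
theorem q10 : q0 1 0 = 1 := rfl
theorem q11 : q0 1 1 = 1 := rfl
theorem q12 : q0 1 2 = 0 := rfl
theorem q20 : q0 2 0 = 0 := rfl
theorem q21 : q0 2 1 = -1 := rfl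
theorem q22 : q0 2 2 = 1 := rfl
theorem q30 : q0 3 0 = 0 := rfl
theorem q31 : q0 3 1 = 1 := rfl
theorem q32 : q0 3 2 = 1 := rfl
theorem q40 : q0 4 0 = 1 := rfl
theorem q41 : q0 4 1 = -1 := rfl
theorem q42 : q0 4 2 = 0 := rfl

section

variable {S : Type} [CommRing S] (a b c : Fin 3 → S)

theorem cub0 : cub a b c 0 = a 0 * b 0 * c 0 := rfl
theorem cub1 : cub a b c 1 = a 0 * b 0 * c 1 + a 0 * b 1 * c 0 + a 1 * b 0 * c 0 := rfl
theorem cub2 : cub a b c 2 = a 0 * b 0 * c 2 + a 0 * b 2 * c 0 + a 2 * b 0 * c 0 +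
  a 0 * b 1 * c 1 + a 1 * b 0 * c 1 + a 1 * b 1 * c 0 := rfl
theorem cub3 : cub a b c 3 = a 0 * b 1 * c 2 + a 0 * b 2 * c 1 + a 1 * b 0 * c 2 +
  a 1 * b 2 * c 0 + a 2 * b 0 * c 1 + a 2 * b 1 * c 0 + a 1 * b 1 * c 1 := rfl
theorem cub4 : cub a b c 4 = a 2 * b 2 * c 0 + a 2 * b 0 * c 2 + a 0 * b 2 * c 2 +
  a 2 * b 1 * c 1 + a 1 * b 2 * c 1 + a 1 * b 1 * c 2 := rfl
theorem cub5 : cub a b c 5 = a 2 * b 2 * c 1 + a 2 * b 1 * c 2 + a 1 * b 2 * c 2 := rfl
theorem cub6 : cub a b c 6 = a 2 * b 2 * c 2 := rfl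

variable (q dq : Fin 5 → Fin 3 → S) (e : Fin 7)

theorem col0 : col q 0 e = cub (q 2) (q 3) (q 4) e := rfl
theorem col1 : col q 1 e = cub (q 1) (q 3) (q 4) e := rfl
theorem col2 : col q 2 e = cub (q 1) (q 2) (q 4) e := rfl
theorem col3 : col q 3 e = cub (q 1) (q 2) (q 3) e := rfl
theorem col4 : col q 4 e = cub (q 0) (q 3) (q 4) e := rfl
theorem col5 : col q 5 e = cub (q 0) (q 2) (q 4) e := rfl
theorem col6 : col q 6 e = cub (q 0) (q 2) (q 3) e := rfl
theorem col7 : col q 7 e = cub (q 0) (q 1) (q 4) e := rfl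
theorem col8 : col q 8 e = cub (q 0) (q 1) (q 3) e := rfl
theorem col9 : col q 9 e = cub (q 0) (q 1) (q 2) e := rfl

theorem dcol0 : dcol q dq 0 e = dcub (q 2) (dq 2) (q 3) (dq 3) (q 4) (dq 4) e := rfl
theorem dcol1 : dcol q dq 1 e = dcub (q 1) (dq 1) (q 3) (dq 3) (q 4) (dq 4) e := rfl
theorem dcol2 : dcol q dq 2 e = dcub (q 1) (dq 1) (q 2) (dq 2) (q 4) (dq 4) e := rfl
theorem dcol3 : dcol q dq 3 e = dcub (q 1) (dq 1) (q 2) (dq 2) (q 3) (dq 3) e := rfl
theorem dcol4 : dcol q dq 4 e = dcub (q 0) (dq 0) (q 3) (dq 3) (q 4) (dq 4) e := rfl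
theorem dcol9 : dcol q dq 9 e = dcub (q 0) (dq 0) (q 1) (dq 1) (q 2) (dq 2) e := rfl

end

theorem relq0 (dc : Fin 10 → ℚ) : rel q0 dc 0 = -dc 7 := by
  simp only [rel, col0, col1, col2, col3, col4, col5, col6, col7, col8, col9, cub0, q00, q01, q02, q10, q11, q12, q20, q21, q22, q30, q31, q32, q40, q41, q42]
  ring

theorem relq1 (dc : Fin 10 → ℚ) : rel q0 dc 1 = dc 1 - dc 2 - dc 4 + dc 5 - dc 8 + dc 9 := by
  simp only [rel, col0, col1, col2, col3, col4, col5, col6, col7, col8, col9, cub1, q00, q01, q02, q10, q11, q12, q20, q21, q22, q30, q31, q32, q40, q41, q42]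
  ring

theorem relq2 (dc : Fin 10 → ℚ) : rel q0 dc 2 = -dc 0 + dc 1 + dc 2 - dc 3 - 2 * dc 5 + dc 6 - 2 * dc 8 := by
  simp only [rel, col0, col1, col2, col3, col4, col5, col6, col7, col8, col9, cub2, q00, q01, q02, q10, q11, q12, q20, q21, q22, q30, q31, q32, q40, q41, q42]
  ring

theorem relq3 (dc : Fin 10 → ℚ) : rel q0 dc 3 = dc 0 - dc 1 + dc 2 - dc 3 + 2 * dc 5 - 2 * dc 8 := by
  simp only [rel, col0, col1, col2, col3, col4, col5, col6, col7, col8, col9, cub3, q00, q01, q02, q10, q11, q12, q20, q21, q22, q30, q31, q32, q40, q41, q42]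
  ring

theorem relq4 (dc : Fin 10 → ℚ) : rel q0 dc 4 = dc 0 - dc 1 - dc 2 + dc 3 - 2 * dc 5 + dc 7 - 2 * dc 8 := by
  simp only [rel, col0, col1, col2, col3, col4, col5, col6, col7, col8, col9, cub4, q00, q01, q02, q10, q11, q12, q20, q21, q22, q30, q31, q32, q40, q41, q42]
  ring

theorem relq5 (dc : Fin 10 → ℚ) : rel q0 dc 5 = -dc 0 + dc 3 + dc 4 + dc 5 - dc 8 - dc 9 := by
  simp only [rel, col0, col1, col2, col3, col4, col5, col6, col7, col8, col9, cub5, q00, q01, q02, q10, q11, q12, q20, q21, q22, q30, q31, q32, q40, q41, q42]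
  ring

theorem relq6 (dc : Fin 10 → ℚ) : rel q0 dc 6 = -dc 6 := by
  simp only [rel, col0, col1, col2, col3, col4, col5, col6, col7, col8, col9, cub6, q00, q01, q02, q10, q11, q12, q20, q21, q22, q30, q31, q32, q40, q41, q42]
  ring

/-- the relations of the first kind -/
theorem drel0 (dq : Fin 5 → Fin 3 → ℚ) (dc : Fin 10 → ℚ) (e : Fin 7) :
    drel q0 dq (c0 0) dc e = rel q0 dc e + (![0, dq 0 0 + dq 1 0 + dq 2 0,
      dq 0 1 + dq 1 1 + dq 2 1, (dq 0 2 + dq 1 2 + dq 2 2) - (dq 0 0 + dq 1 0 + dq 2 0),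
      -(dq 0 1 + dq 1 1 + dq 2 1), -(dq 0 2 + dq 1 2 + dq 2 2), 0] : Fin 7 → ℚ) e := by
  have h : drel q0 dq (c0 0) dc e = rel q0 dc e + (dcol q0 dq 0 e + dcol q0 dq 1 e +
      dcol q0 dq 4 e) := by
    unfold drel
    simp only [c0, Matrix.cons_val]
    ring
  rw [h]
  congr 1
  fin_cases e <;>
    simp only [dcol0, dcol1, dcol4, dcub, cub0, cub1, cub2, cub3, cub4, cub5, cub6, q00, q01, q02, q10, q11, q12, q20, q21, q22, q30, q31, q32, q40, q41, q42,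
      Matrix.cons_val, Fin.reduceFinMk, Fin.zero_eta, Fin.mk_one] <;> ring

theorem drel1 (dq : Fin 5 → Fin 3 → ℚ) (dc : Fin 10 → ℚ) (e : Fin 7) :
    drel q0 dq (c0 1) dc e = rel q0 dc e - (![0, dq 0 0 + dq 3 0 + dq 4 0,
      dq 0 1 + dq 3 1 + dq 4 1, (dq 0 2 + dq 3 2 + dq 4 2) - (dq 0 0 + dq 3 0 + dq 4 0),
      -(dq 0 1 + dq 3 1 + dq 4 1), -(dq 0 2 + dq 3 2 + dq 4 2), 0] : Fin 7 → ℚ) e := by
  have h : drel q0 dq (c0 1) dc e = rel q0 dc e + (dcol q0 dq 2 e + dcol q0 dq 3 e +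
      dcol q0 dq 9 e) := by
    unfold drel
    simp only [c0, Matrix.cons_val]
    ring
  rw [h, sub_eq_add_neg]
  congr 1
  fin_cases e <;>
    simp only [dcol2, dcol3, dcol9, dcub, cub0, cub1, cub2, cub3, cub4, cub5, cub6, q00, q01, q02, q10, q11, q12, q20, q21, q22, q30, q31, q32, q40, q41, q42,
      Matrix.cons_val, Fin.reduceFinMk, Fin.zero_eta, Fin.mk_one] <;> ring

/-- the quartic of the third relation -/
def zr (dq : Fin 5 → Fin 3 → ℚ) : Fin 5 → ℚ :=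
  ![dq 2 0 + dq 3 0,
    -dq 1 0 + dq 2 1 + dq 2 0 + dq 3 1 - dq 3 0 + dq 4 0,
    -dq 1 1 + dq 1 0 + dq 2 2 + dq 2 1 + dq 3 2 - dq 3 1 + dq 4 1 + dq 4 0,
    -dq 1 2 + dq 1 1 + dq 2 2 - dq 3 2 + dq 4 2 + dq 4 1,
    dq 1 2 + dq 4 2]

theorem drel2 (dq : Fin 5 → Fin 3 → ℚ) (dc : Fin 10 → ℚ) (e : Fin 7) :
    drel q0 dq (c0 2) dc e = rel q0 dc e + (![-zr dq 0, -zr dq 1, -(zr dq 2 + zr dq 0),
      -(zr dq 3 + zr dq 1), -(zr dq 4 + zr dq 2), -zr dq 3, -zr dq 4] : Fin 7 → ℚ) e := by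
  have h : drel q0 dq (c0 2) dc e = rel q0 dc e + (dcol q0 dq 4 e + dcol q0 dq 9 e) := by
    unfold drel
    simp only [c0, Matrix.cons_val]
    ring
  rw [h]
  congr 1
  fin_cases e <;>
    simp only [dcol4, dcol9, dcub, cub0, cub1, cub2, cub3, cub4, cub5, cub6, zr, q00, q01, q02, q10, q11, q12, q20, q21, q22, q30, q31, q32, q40, q41, q42,
      Matrix.cons_val, Fin.reduceFinMk, Fin.zero_eta, Fin.mk_one] <;> ring

/-- the first order relations can be solved -/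
theorem exists_dq (dc : Fin 3 → Fin 10 → ℚ)
    (a5 : dc 0 5 = 0) (a6 : dc 0 6 = 0) (a7 : dc 0 7 = 0) (a8 : dc 0 8 = 0)
    (b5 : dc 1 5 = 0) (b6 : dc 1 6 = 0) (b7 : dc 1 7 = 0) (b8 : dc 1 8 = 0)
    (g0 : dc 2 0 = dc 2 1) (g2 : dc 2 2 = dc 2 3) :
    ∃ dq : Fin 5 → Fin 3 → ℚ, ∀ r e,
      rel (fun i b => du (q0 i b) (dq i b)) (fun π => du (c0 r π) (dc r π)) e = 0 := by
  have key : ∀ u0 u1 u2 w0 w1 w2 K z0 z1 z2 z3 z4 : ℚ,
      u0 = -dc 0 1 + dc 0 4 + dc 0 2 - dc 0 9 →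
      u1 = dc 0 0 - dc 0 1 - dc 0 2 + dc 0 3 →
      u2 = -dc 0 0 + dc 0 4 + dc 0 3 - dc 0 9 →
      w0 = dc 1 1 - dc 1 4 - dc 1 2 + dc 1 9 →
      w1 = -dc 1 0 + dc 1 1 + dc 1 2 - dc 1 3 →
      w2 = dc 1 0 - dc 1 4 - dc 1 3 + dc 1 9 →
      K = -dc 2 0 + dc 2 2 + dc 2 4 - dc 2 9 →
      2 * z0 = -dc 2 7 - u0 →
      2 * z1 = -(K - dc 2 5 + dc 2 8) - u0 - u1 - w0 →
      2 * z2 = -(2 * dc 2 5 - dc 2 6 - dc 2 7 + 2 * dc 2 8) - u1 - u2 - w0 - w1 →
      2 * z3 = -(-K - dc 2 5 + dc 2 8) - u2 - w1 - w2 →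
      2 * z4 = -dc 2 6 - w2 →
      ∃ dq : Fin 5 → Fin 3 → ℚ, ∀ r e, drel q0 dq (c0 r) (dc r) e = 0 := by
    intro u0 u1 u2 w0 w1 w2 K z0 z1 z2 z3 z4 hu0 hu1 hu2 hw0 hw1 hw2 hK hz0 hz1 hz2 hz3 hz4
    refine ⟨![![-z0, -(z1 + z3), -(z2 + z4)], ![0, z3, z4], ![u0 + z0, u1 + z1, u2 + z2],
      ![z0, z1, z2], ![w0, w1 + z3, w2 + z4]], fun r e => ?_⟩
    fin_cases r
    · simp only [Fin.zero_eta]
      rw [drel0]
      fin_cases e
      · simp only [Fin.zero_eta, relq0, Matrix.cons_val, a7]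
        ring
      · simp only [Fin.mk_one, relq1, Matrix.cons_val, a5, a8]
        linear_combination hu0
      · simp only [Fin.reduceFinMk, relq2, Matrix.cons_val, a5, a6, a8]
        linear_combination hu1
      · simp only [Fin.reduceFinMk, relq3, Matrix.cons_val, a5, a8]
        linear_combination hu2 - hu0
      · simp only [Fin.reduceFinMk, relq4, Matrix.cons_val, a5, a7, a8]
        linear_combination -hu1
      · simp only [Fin.reduceFinMk, relq5, Matrix.cons_val, a5, a8]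
        linear_combination -hu2
      · simp only [Fin.reduceFinMk, relq6, Matrix.cons_val, a6]
        ring
    · simp only [Fin.mk_one]
      rw [drel1]
      fin_cases e
      · simp only [Fin.zero_eta, relq0, Matrix.cons_val, b7]
        ring
      · simp only [Fin.mk_one, relq1, Matrix.cons_val, b5, b8]
        linear_combination -hw0
      · simp only [Fin.reduceFinMk, relq2, Matrix.cons_val, b5, b6, b8]
        linear_combination -hw1
      · simp only [Fin.reduceFinMk, relq3, Matrix.cons_val, b5, b8]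
        linear_combination -hw2 + hw0
      · simp only [Fin.reduceFinMk, relq4, Matrix.cons_val, b5, b7, b8]
        linear_combination hw1
      · simp only [Fin.reduceFinMk, relq5, Matrix.cons_val, b5, b8]
        linear_combination hw2
      · simp only [Fin.reduceFinMk, relq6, Matrix.cons_val, b6]
        ring
    · simp only [Fin.reduceFinMk]
      rw [drel2]
      fin_cases e
      · simp only [Fin.zero_eta, relq0, Matrix.cons_val, zr]
        linear_combination -hz0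
      · simp only [Fin.mk_one, relq1, Matrix.cons_val, zr]
        linear_combination -hz1 + hK - g0
      · simp only [Fin.reduceFinMk, relq2, Matrix.cons_val, zr]
        linear_combination -hz2 - hz0 - g0 + g2
      · simp only [Fin.reduceFinMk, relq3, Matrix.cons_val, zr]
        linear_combination -hz3 - hz1 + g0 + g2
      · simp only [Fin.reduceFinMk, relq4, Matrix.cons_val, zr]
        linear_combination -hz4 - hz2 + g0 - g2
      · simp only [Fin.reduceFinMk, relq5, Matrix.cons_val, zr]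
        linear_combination -hz3 - hK - g2
      · simp only [Fin.reduceFinMk, relq6, Matrix.cons_val, zr]
        linear_combination -hz4
  obtain ⟨dq, hdq⟩ := key _ _ _ _ _ _ _
    ((-dc 2 7 - (-dc 0 1 + dc 0 4 + dc 0 2 - dc 0 9)) / 2) _ _ _ _ rfl rfl rfl rfl rfl rfl rfl
    (by ring) (mul_div_cancel₀ _ two_ne_zero) (mul_div_cancel₀ _ two_ne_zero)
    (mul_div_cancel₀ _ two_ne_zero) (mul_div_cancel₀ _ two_ne_zero)
  have hrel0 : ∀ r e, rel q0 (c0 r) e = 0 := by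
    intro r e
    fin_cases r <;> fin_cases e <;>
      simp only [Fin.zero_eta, Fin.mk_one, Fin.reduceFinMk, relq0, relq1, relq2, relq3, relq4,
        relq5, relq6, c0, Matrix.cons_val] <;> norm_num
  refine ⟨dq, fun r e => ?_⟩
  rw [du_rel, hrel0, hdq]
  ext <;> simp

end Pool.Agent.LX.H87.K222
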