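import Pool.Agent.Lib.MP_c7af3c_ag.LX.H87.Sect
import Pool.Agent.Lib.MP_c7af3c_ag.ELL.All

/-!
A parametrised rational curve gives a morphism from the elliptic curve to projective space.
-/

set_option autoImplicit false

namespace Pool.Agent.LX.H87

open AlgebraicGeometry CategoryTheory CategoryTheory.Limits Pool.Agent.Ell
open Pool.Agent.Lib.MP_c7af3c_ag.ELL.H86
open Pool.Agent.Gen Pool.Agent.Gen.H38
open MvPolynomial (homogeneousSubmodule)

section

variable {k : Type} [Field k] {n : ℕ}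

/-- the parameter in a chart -/
noncomputable def par (R : Type) [CommRing R] (c : Fin 2) (x : R) : Fin 2 → R :=
  if c = 0 then ![x, 1] else ![-1, x]

theorem par_ne (R : Type) [CommRing R] [Nontrivial R] (c : Fin 2) (x : R) : par R c x ≠ 0 := by
  unfold par
  split_ifs
  · intro h
    have := congrFun h 1
    simp at this
  · intro h
    have := congrFun h 0
    simp at this

/-- the coordinates along the curve -/
noncomputable def wcr (φ : Fin (n + 1) → MvPolynomial (Fin 2) k) (c : Fin 2) (l : Fin (n + 1)) :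
    B k :=
  MvPolynomial.aeval (par (B k) c (bx k)) (φ l)

/-- the value of the coordinates -/
noncomputable def vcr (φ : Fin (n + 1) → MvPolynomial (Fin 2) k) (c : Fin 2) (x : k)
    (l : Fin (n + 1)) : k :=
  MvPolynomial.eval (par k c x) (φ l)

theorem bHom_wcr (φ : Fin (n + 1) → MvPolynomial (Fin 2) k) (c : Fin 2) (l : Fin (n + 1))
    (x y : k) (h : OnC x y) : bHom (R := k) x y h (wcr φ c l) = vcr φ c x l := by
  unfold wcr vcr
  have h1 : (fun i => bHom (R := k) x y h (par (B k) c (bx k) i)) = par k c x := by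
    funext i
    unfold par
    split_ifs
    · fin_cases i
      · simp [bHom_bx]
      · simp
    · fin_cases i
      · simp
      · simp [bHom_bx]
  rw [← MvPolynomial.coe_aeval_eq_eval]
  change (bHom (R := k) x y h) (MvPolynomial.aeval (par (B k) c (bx k)) (φ l)) = _
  rw [MvPolynomial.comp_aeval_apply, h1]
  rfl

/-- the charts -/
abbrev Acr (φ : Fin (n + 1) → MvPolynomial (Fin 2) k) (i : Fin 2 × Fin (n + 1)) : Type :=
  Localization.Away (wcr φ i.1 i.2)

theorem unit_wcr (φ : Fin (n + 1) → MvPolynomial (Fin 2) k) (i : Fin 2 × Fin (n + 1)) :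
    IsUnit (algebraMap (B k) (Acr φ i) (wcr φ i.1 i.2)) :=
  IsLocalization.Away.algebraMap_isUnit _

/-- the domains -/
noncomputable def Ucr (φ : Fin (n + 1) → MvPolynomial (Fin 2) k) (i : Fin 2 × Fin (n + 1)) :
    Over (Spec (CommRingCat.of k)) :=
  Over.mk (Spec.map (CommRingCat.ofHom (algebraMap k (Acr φ i))))

/-- to the affine curve -/
noncomputable def ucr (φ : Fin (n + 1) → MvPolynomial (Fin 2) k) (i : Fin 2 × Fin (n + 1)) :
    Ucr φ i ⟶ CC k :=
  Over.homMk (Spec.map (CommRingCat.ofHom (algebraMap (B k) (Acr φ i)))) (by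
    change Spec.map _ ≫ Spec.map _ = Spec.map _
    rw [← Spec.map_comp, ← CommRingCat.ofHom_comp, ← IsScalarTower.algebraMap_eq])

instance (φ : Fin (n + 1) → MvPolynomial (Fin 2) k) (i : Fin 2 × Fin (n + 1)) :
    IsOpenImmersion (ucr φ i).left :=
  inferInstanceAs (IsOpenImmersion (Spec.map (CommRingCat.ofHom
    (algebraMap (B k) (Localization.Away (wcr φ i.1 i.2))))))

theorem lift_Ucr (φ : Fin (n + 1) → MvPolynomial (Fin 2) k) (i : Fin 2 × Fin (n + 1)) (x y : k)
    (h : OnC x y) (hv : vcr φ i.1 x i.2 ≠ 0) : ∃ q : PT k ⟶ Ucr φ i, q ≫ ucr φ i = ptC x y h := by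
  have hu : IsUnit ((bHom (R := k) x y h : B k →+* k) (wcr φ i.1 i.2)) := by
    change IsUnit (bHom (R := k) x y h (wcr φ i.1 i.2))
    rw [bHom_wcr]
    exact hv.isUnit
  let e : Acr φ i →+* k := IsLocalization.Away.lift (wcr φ i.1 i.2)
    (g := (bHom (R := k) x y h : B k →+* k)) hu
  have he : e.comp (algebraMap (B k) (Acr φ i)) = (bHom (R := k) x y h : B k →+* k) :=
    RingHom.ext fun z => IsLocalization.Away.lift_eq (wcr φ i.1 i.2)
      (g := (bHom (R := k) x y h : B k →+* k)) hu z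
  have he' : e.comp (algebraMap k (Acr φ i)) = RingHom.id k := by
    rw [IsScalarTower.algebraMap_eq k (B k) (Acr φ i), ← RingHom.comp_assoc, he]
    exact RingHom.ext fun z => (bHom (R := k) x y h).commutes z
  refine ⟨Over.homMk (Spec.map (CommRingCat.ofHom e)) ?_, ?_⟩
  · change Spec.map _ ≫ Spec.map _ = 𝟙 _
    rw [← Spec.map_comp, ← CommRingCat.ofHom_comp, he']
    exact Spec.map_id _
  · apply Over.OverMorphism.ext
    change Spec.map _ ≫ Spec.map _ = Spec.map _
    rw [← Spec.map_comp, ← CommRingCat.ofHom_comp, he]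

/-- the parameter at a point of the elliptic curve -/
noncomputable def parP : (W k).Point → Fin 2 → k
  | .zero => ![1, 0]
  | .some x _ _ => ![x, 1]

theorem parP_ne (P : (W k).Point) : parP P ≠ 0 := by
  rcases P with _ | ⟨x, y, h⟩
  · intro h
    have := congrFun h 0
    simp [parP] at this
  · intro h
    have := congrFun h 1
    simp [parP] at this

/-- the parameter at a point of a chart is the one of the point, up to a factor -/
theorem par_compat (hA : AffStatement) [CharZero k] [DecidableEq k] (hb : PtsStatement)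
    (c : Fin 2) (x y : k) (h : OnC x y) (P : (W k).Point)
    (hp : ptC x y h ≫ Jc c = ptE P) :
    ∃ t : k, t ≠ 0 ∧ par k c x = fun l => t * parP P l := by
  obtain ⟨h1, h2, h3⟩ := hb k
  by_cases hc : c = 0
  · subst hc
    have h4 : ptC x y h ≫ J0 k = ptE P := hp
    rw [h2] at h4
    have h5 := h1.1 h4
    subst h5
    obtain ⟨h', e⟩ := hA k x y h
    rw [e]
    refine ⟨1, one_ne_zero, funext fun l => ?_⟩
    rw [one_mul]
    rfl
  · have hc1 : c = 1 := by
      fin_cases c
      · exact absurd rfl hc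
      · rfl
    subst hc1
    have h4 : ptC x y h ≫ J1 k = ptE P := hp
    by_cases hx : x = 0
    · subst hx
      have hy : y = 0 := by
        unfold OnC at h
        have : y ^ 2 = 0 := by rw [h]; ring
        exact pow_eq_zero_iff (two_ne_zero) |>.1 this
      subst hy
      have h5 : ptE (0 : (W k).Point) = ptE P := h4
      have h6 := h1.1 h5
      subst h6
      refine ⟨-1, neg_ne_zero.2 one_ne_zero, funext fun l => ?_⟩
      have h7 : parP (0 : (W k).Point) l = (![1, 0] : Fin 2 → k) l := rfl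
      rw [h7]
      unfold par
      rw [if_neg hc]
      fin_cases l <;> simp
    · rw [ptC_J1 x y h hx, h2] at h4
      have h5 := h1.1 h4
      subst h5
      obtain ⟨h', e⟩ := hA k _ _ (onC_tr h hx)
      rw [e]
      refine ⟨x, hx, funext fun l => ?_⟩
      have h7 : parP (.some (-x⁻¹) (y * x⁻¹ ^ 2) h') l = (![-x⁻¹, 1] : Fin 2 → k) l := rfl
      rw [h7]
      unfold par
      rw [if_neg hc]
      have h8 : x * x⁻¹ = 1 := mul_inv_cancel₀ hx
      fin_cases l
      · simp [h8]
      · simp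

/-- every parameter comes from a point, up to a factor -/
theorem exists_parP [IsAlgClosed k] [CharZero k] (hA : AffStatement) (p : Fin 2 → k)
    (hp : p ≠ 0) : ∃ (P : (W k).Point) (t : k), t ≠ 0 ∧ p = fun l => t * parP P l := by
  by_cases h1 : p 1 = 0
  · refine ⟨.zero, p 0, ?_, ?_⟩
    · intro h0
      apply hp
      funext l
      fin_cases l
      · exact h0
      · exact h1
    · funext l
      fin_cases l
      · simp [parP]
      · simp [parP, h1]
  · obtain ⟨y, hy⟩ := IsAlgClosed.exists_pow_nat_eq ((p 0 / p 1) ^ 3 - (p 0 / p 1))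
      (n := 2) (by norm_num)
    have hC : OnC (p 0 / p 1) y ∨ OnC (p 0 / p 1) y := by
      left
      unfold OnC
      rw [hy]
    obtain ⟨h', e⟩ := hA k _ _ (hC.elim id id)
    refine ⟨.some _ _ h', p 1, h1, ?_⟩
    funext l
    fin_cases l
    · simp [parP, mul_div_cancel₀ _ h1]
    · simp [parP]

end

section

variable {k : Type} [Field k] {n : ℕ} [GradedAlgebra (homogeneousSubmodule (Fin (n + 1)) k)]

/-- the morphisms -/
noncomputable def fcr (φ : Fin (n + 1) → MvPolynomial (Fin 2) k) (i : Fin 2 × Fin (n + 1)) :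
    Ucr φ i ⟶ Over.mk (projStr k n) :=
  Over.homMk (gX k n i.2 (fun l => algebraMap (B k) (Acr φ i) (wcr φ i.1 l))
    (unit_wcr φ i)) (gX_str k n _ _ _)

/-- a point of the domain and its coordinates -/
theorem point_Ucr (hP : PtcStatement) (φ : Fin (n + 1) → MvPolynomial (Fin 2) k)
    (i : Fin 2 × Fin (n + 1)) (q : PT k ⟶ Ucr φ i) :
    ∃ (x y : k) (h : OnC x y) (hv : IsUnit (vcr φ i.1 x i.2)),
      q ≫ ucr φ i = ptC x y h ∧ q ≫ fcr φ i = QV i.2 (vcr φ i.1 x) hv := by
  obtain ⟨x, y, h, e⟩ := hP k (q ≫ ucr φ i)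
  obtain ⟨ψ, hψ⟩ := Spec.map_surjective q.left
  have hw : q.left ≫ Spec.map (CommRingCat.ofHom (algebraMap k (Acr φ i))) = 𝟙 _ := Over.w q
  have h1 : CommRingCat.ofHom (algebraMap k (Acr φ i)) ≫ ψ = 𝟙 (CommRingCat.of k) := by
    apply Spec.map_injective
    rw [Spec.map_comp, hψ, Spec.map_id]
    exact hw
  let f : Acr φ i →ₐ[k] k :=
    { ψ.hom with
      commutes' := fun r => by
        have := congrArg (fun g : CommRingCat.of k ⟶ CommRingCat.of k => g.hom r) h1
        exact this }
  have hf : CommRingCat.ofHom (f : Acr φ i →+* k) = ψ := rfl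
  have h2 : (CommRingCat.ofHom (algebraMap (B k) (Acr φ i)) ≫ ψ) =
      CommRingCat.ofHom (bHom (R := k) x y h : B k →+* k) := by
    apply Spec.map_injective
    rw [Spec.map_comp, hψ]
    exact congrArg (fun f : PT k ⟶ CC k => f.left) e
  have h3 : ∀ z : B k, f (algebraMap (B k) (Acr φ i) z) = bHom (R := k) x y h z := by
    intro z
    exact congrArg (fun g : CommRingCat.of (B k) ⟶ CommRingCat.of k => g.hom z) h2
  have h4 : ∀ l, f (algebraMap (B k) (Acr φ i) (wcr φ i.1 l)) = vcr φ i.1 x l := by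
    intro l
    rw [h3, bHom_wcr]
  have hv : IsUnit (vcr φ i.1 x i.2) := by
    rw [← h4]
    exact (unit_wcr φ i).map f
  refine ⟨x, y, h, hv, e, ?_⟩
  apply Over.OverMorphism.ext
  change q.left ≫ gX k n i.2 (fun l => algebraMap (B k) (Acr φ i) (wcr φ i.1 l))
    (unit_wcr φ i) = gX k n i.2 (vcr φ i.1 x) hv
  rw [← hψ, ← hf]
  exact gX_map k n f i.2 _ _ _ _ h4

/-- equal points have proportional coordinates -/
theorem QV_inj (i j : Fin (n + 1)) (v v' : Fin (n + 1) → k) (hi : IsUnit (v i))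
    (hj : IsUnit (v' j)) (h : QV i v hi = QV j v' hj) (l l' : Fin (n + 1)) :
    v l * v' l' = v' l * v l' := by
  have hi0 : v i ≠ 0 := hi.ne_zero
  have h10 : gX k n i v hi = gX k n j v' hj :=
    congrArg (fun f : PT k ⟶ Over.mk (projStr k n) => f.left) h
  have hch : ⊤ ≤ (gX k n j v' hj) ⁻¹ᵁ
      Proj.basicOpen (homogeneousSubmodule (Fin (n + 1)) k) (MvPolynomial.X i) := by
    rw [← h10]
    intro z _
    have h0 : (⊤ : (Spec (CommRingCat.of (HomogeneousLocalization.Away (gr k n)
        (MvPolynomial.X i : MvPolynomial (Fin (n + 1)) k)))).Opens) ≤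
        Proj.awayι (gr k n) (MvPolynomial.X i) (X_mem k n _) one_pos ⁻¹ᵁ
          Proj.basicOpen (gr k n) (MvPolynomial.X i) := by
      rw [← Proj.opensRange_awayι (gr k n) (MvPolynomial.X i) (X_mem k n _) one_pos]
      simp
    exact h0 (TopologicalSpace.Opens.mem_top _)
  have hbj : v' i ≠ 0 := gX_ne k n _ _ v' hj hch
  have h11 : gX k n j v' hj = gX k n i v' hbj.isUnit := gX_chart k n _ _ v' _ _
  have h12 : ∀ l, v l * (v i)⁻¹ = v' l * (v' i)⁻¹ := by
    intro l
    rw [← gX_pcoord k n i v hi _ h10.symm hch l,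
      ← gX_pcoord k n i v' hbj.isUnit _ h11 hch l]
  have h13 : ∀ l, v l = v' l * ((v' i)⁻¹ * v i) := by
    intro l
    have := h12 l
    rw [← mul_assoc, ← this, mul_assoc, inv_mul_cancel₀ hi0, mul_one]
  rw [h13 l, h13 l']
  ring

end

/-- a parametrised rational curve without base points gives a morphism from the elliptic curve -/
theorem ratmap (hPtc : PtcStatement) (hA : AffStatement) (hPts : PtsStatement)
    (hMor : MorStatement) (hInt : InteStatement) (k : Type) [Field k] [IsAlgClosed k] [CharZero k]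
    (n : ℕ) [GradedAlgebra (homogeneousSubmodule (Fin (n + 1)) k)]
    (m : ℕ) (φ : Fin (n + 1) → MvPolynomial (Fin 2) k) (hφ : ∀ l, (φ l).IsHomogeneous m)
    (hz : ∀ p : Fin 2 → k, p ≠ 0 → ∃ l, MvPolynomial.eval p (φ l) ≠ 0)
    (hnc : ∃ (l l' : Fin (n + 1)) (p q : Fin 2 → k), MvPolynomial.eval p (φ l) *
      MvPolynomial.eval q (φ l') ≠ MvPolynomial.eval q (φ l) * MvPolynomial.eval p (φ l')) :
    ∃ g : EE k ⟶ Over.mk (Gen.projStr k n),
      (∃ P Q : PT k ⟶ EE k, P ≫ g ≠ Q ≫ g) ∧
      ∀ (P : PT k ⟶ EE k) (j : Fin (n + 1)) (h : ⊤ ≤ (P ≫ g).left ⁻¹ᵁ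
        Proj.basicOpen (homogeneousSubmodule (Fin (n + 1)) k) (MvPolynomial.X j)),
        ∃ (c : k) (p : Fin 2 → k), Gen.pcoord k n j (P ≫ g).left h =
          fun l => c * MvPolynomial.eval p (φ l) := by
  classical
  obtain ⟨h1, h2, h3⟩ := hPts k
  obtain ⟨i1, i2, i3⟩ := hInt k
  let E := Equiv.ofBijective _ h1
  have hE : ∀ p : PT k ⟶ EE k, ptE (E.symm p) = p := fun p => E.apply_symm_apply p
  have hne := fun p : PT k ⟶ EE k => hz (parP (E.symm p)) (parP_ne _)
  choose jj' hjj using hne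
  let w : (PT k ⟶ EE k) → Fin (n + 1) → k := fun p l =>
    MvPolynomial.eval (parP (E.symm p)) (φ l)
  let Φ : (PT k ⟶ EE k) → (PT k ⟶ Over.mk (projStr k n)) := fun p =>
    QV (jj' p) (w p) (hjj p).isUnit
  have e1 : IsReduced (EE k).left := by
    have : IsReduced (El k) := inferInstance
    exact this
  have e2 : LocallyOfFiniteType (EE k).hom := i2
  have e3 : IsSeparated (Over.mk (projStr k n)).hom := by
    change IsSeparated (projStr k n)
    unfold projStr
    infer_instance
  have e4 : LocallyOfFiniteType (Over.mk (projStr k n)).hom := lft_projStr k n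
  have hcover : ∀ p : PT k ⟶ EE k, ∃ (i : Fin 2 × Fin (n + 1)) (q : PT k ⟶ Ucr φ i),
      q ≫ (ucr φ i ≫ Jc i.1) = p := by
    intro p
    obtain ⟨c, q, hq⟩ := exists_chart' p
    obtain ⟨x, y, h, rfl⟩ := hPtc k q
    obtain ⟨j, hj⟩ := hz (par k c x) (par_ne k c x)
    obtain ⟨q', hq'⟩ := lift_Ucr φ (c, j) x y h hj
    refine ⟨(c, j), q', ?_⟩
    rw [← Category.assoc, hq', hq]
  have hcompat : ∀ (i : Fin 2 × Fin (n + 1)) (q : PT k ⟶ Ucr φ i),
      q ≫ fcr φ i = Φ (q ≫ (ucr φ i ≫ Jc i.1)) := by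
    intro i q
    obtain ⟨x, y, h, hv, e, e'⟩ := point_Ucr hPtc φ i q
    have h4 : ptC x y h ≫ Jc i.1 = ptE (E.symm (q ≫ (ucr φ i ≫ Jc i.1))) := by
      rw [hE, ← Category.assoc, e]
    obtain ⟨t, ht, h5⟩ := par_compat hA hPts i.1 x y h _ h4
    rw [e']
    refine QV_eq _ _ _ _ _ _ (t ^ m) (pow_ne_zero _ ht) fun l => ?_
    change MvPolynomial.eval (par k i.1 x) (φ l) = _
    rw [h5]
    exact eval₂_smul_hom (RingHom.id k) t _ (hφ l)
  obtain ⟨g, hg⟩ := hMor k (EE k) (Over.mk (projStr k n)) (Fin 2 × Fin (n + 1)) (Ucr φ)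
    (fun i => ucr φ i ≫ Jc i.1) (fun i => by
      change IsOpenImmersion ((ucr φ i).left ≫ (Jc i.1).left)
      infer_instance) (fcr φ) hcover Φ hcompat
  refine ⟨g, ?_, ?_⟩
  · obtain ⟨l, l', p, q, hpq⟩ := hnc
    have key : ∀ p : Fin 2 → k, p ≠ 0 → ∃ (P : PT k ⟶ EE k) (t : k),
        ∀ l, MvPolynomial.eval p (φ l) = t * w P l := by
      intro p hp
      obtain ⟨P, t, ht, hP⟩ := exists_parP hA p hp
      refine ⟨ptE P, t ^ m, fun l => ?_⟩
      have h6 : E.symm (ptE P) = P := E.symm_apply_apply P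
      change _ = t ^ m * MvPolynomial.eval (parP (E.symm (ptE P))) (φ l)
      rw [h6, hP]
      exact eval₂_smul_hom (RingHom.id k) t _ (hφ l)
    have hp0 : ∀ p : Fin 2 → k, p = 0 → (∀ l, MvPolynomial.eval p (φ l) = 0) ∨ m = 0 := by
      intro p hp
      by_cases hm : m = 0
      · exact Or.inr hm
      · left
        intro l
        rw [hp]
        have := eval₂_smul_hom (RingHom.id k) (0 : k) (0 : Fin 2 → k) (hφ l)
        rw [zero_pow hm, zero_mul] at this
        have h7 : (fun i => (0 : k) * (0 : Fin 2 → k) i) = 0 := by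
          funext i
          simp
        rw [h7] at this
        exact this
    have hm0 : m ≠ 0 := by
      intro hm
      apply hpq
      have h8 : ∀ (p : Fin 2 → k) l, MvPolynomial.eval p (φ l) = MvPolynomial.coeff 0 (φ l) := by
        intro p l
        have h9 : φ l = MvPolynomial.C (MvPolynomial.coeff 0 (φ l)) :=
          MvPolynomial.totalDegree_eq_zero_iff_eq_C.1
            ((MvPolynomial.totalDegree_zero_iff_isHomogeneous _).2 (hm ▸ hφ l))
        conv_lhs => rw [h9]
        rw [MvPolynomial.eval_C]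
      rw [h8, h8, h8, h8]
    have hp : p ≠ 0 := by
      intro h0
      rcases hp0 p h0 with h | h
      · exact hpq (by rw [h l, h l', zero_mul, mul_zero])
      · exact hm0 h
    have hq : q ≠ 0 := by
      intro h0
      rcases hp0 q h0 with h | h
      · exact hpq (by rw [h l, h l', zero_mul, mul_zero])
      · exact hm0 h
    obtain ⟨P, t, hP⟩ := key p hp
    obtain ⟨Q, u, hQ⟩ := key q hq
    refine ⟨P, Q, fun hEq => ?_⟩
    rw [hg, hg] at hEq
    have h9 := QV_inj _ _ _ _ _ _ hEq l l'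
    apply hpq
    rw [hP, hP, hQ, hQ]
    linear_combination (t * u) * h9
  · intro P j h
    have h6 : P ≫ g = Φ P := hg P
    have h7 : (P ≫ g).left = gX k n (jj' P) (w P) (hjj P).isUnit := by
      rw [h6]
      rfl
    have h8 : ⊤ ≤ (gX k n (jj' P) (w P) (hjj P).isUnit) ⁻¹ᵁ
        Proj.basicOpen (homogeneousSubmodule (Fin (n + 1)) k) (MvPolynomial.X j) := by
      rw [← h7]
      exact h
    have h9 : w P j ≠ 0 := gX_ne k n _ _ _ _ h8
    have h10 : (P ≫ g).left = gX k n j (w P) h9.isUnit := by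
      rw [h7]
      exact gX_chart k n _ _ _ _ _
    have h11 := gX_pcoord k n j (w P) h9.isUnit (P ≫ g).left h10 h
    refine ⟨(w P j)⁻¹, parP (E.symm P), funext fun l => ?_⟩
    rw [h11 l]
    change MvPolynomial.eval (parP (E.symm P)) (φ l) * _ = _
    ring

end Pool.Agent.LX.H87
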