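import Pool.Agent.Lib.MP_c7af3c_ag.LX.H87.Sect
import Pool.Agent.Lib.MP_c7af3c_ag.ELL.All

/-!
A closed subscheme of projective space which contains a parametrised rational curve is not
arithmetically hyperbolic.
-/

set_option autoImplicit false

namespace Pool.Agent.LX.H87

open AlgebraicGeometry CategoryTheory CategoryTheory.Limits Pool.Agent.Ell
open MvPolynomial (homogeneousSubmodule)

section Poly

variable {k : Type} [Field k] {n : ℕ} (φ : Fin (n + 1) → MvPolynomial (Fin 2) k)

/-- The dehomogenised form. -/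
noncomputable def deh (l : Fin (n + 1)) : Polynomial k :=
  MvPolynomial.aeval ![(1 : Polynomial k), Polynomial.X] (φ l)

theorem deh_eval (l : Fin (n + 1)) (t : k) :
    (deh φ l).eval t = MvPolynomial.eval ![1, t] (φ l) := by
  unfold deh
  have h1 : Polynomial.evalRingHom t (MvPolynomial.aeval ![(1 : Polynomial k), Polynomial.X] (φ l)) =
      MvPolynomial.eval₂ ((Polynomial.evalRingHom t).comp (algebraMap k (Polynomial k)))
        (fun i => Polynomial.evalRingHom t (![(1 : Polynomial k), Polynomial.X] i)) (φ l) := by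
    rw [MvPolynomial.aeval_def, MvPolynomial.eval₂_comp_left]
    rfl
  have h2 : (Polynomial.evalRingHom t).comp (algebraMap k (Polynomial k)) = RingHom.id k := by
    ext a
    simp
  have h3 : (fun i => Polynomial.evalRingHom t (![(1 : Polynomial k), Polynomial.X] i)) =
      ![1, t] := by
    funext i
    fin_cases i
    · simp
    · simp
  rw [h2, h3] at h1
  exact h1

theorem deh_span [IsAlgClosed k] (hz : ∀ p : Fin 2 → k, p ≠ 0 → ∃ l, MvPolynomial.eval p (φ l) ≠ 0) :
    ∃ a : Fin (n + 1) → Polynomial k, ∑ l, a l * deh φ l = 1 := by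
  have h1 : Ideal.span (Set.range (deh φ)) = ⊤ := by
    obtain ⟨g, hg⟩ := (IsPrincipalIdealRing.principal (Ideal.span (Set.range (deh φ)))).principal
    have hg' : Ideal.span (Set.range (deh φ)) = Ideal.span {g} := hg
    rw [hg', Ideal.span_singleton_eq_top]
    by_contra hu
    have hroot : ∃ a, g.eval a = 0 := by
      by_cases hg0 : g = 0
      · exact ⟨0, by rw [hg0, Polynomial.eval_zero]⟩
      · have hdeg : g.degree ≠ 0 := by
          intro h0
          exact hu (Polynomial.isUnit_iff_degree_eq_zero.2 h0)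
        obtain ⟨a, ha⟩ := IsAlgClosed.exists_root g hdeg
        exact ⟨a, ha⟩
    obtain ⟨a, ha⟩ := hroot
    obtain ⟨l, hl⟩ := hz ![1, a] (fun h0 => by
      have := congrFun h0 0
      simp at this)
    apply hl
    rw [← deh_eval]
    have h2 : deh φ l ∈ Ideal.span {g} := by
      rw [← hg']
      exact Ideal.subset_span ⟨l, rfl⟩
    obtain ⟨r, hr⟩ := Ideal.mem_span_singleton.1 h2
    rw [hr, Polynomial.eval_mul, ha, zero_mul]
  have h2 : (1 : Polynomial k) ∈ Ideal.span (Set.range (deh φ)) := by
    rw [h1]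
    trivial
  obtain ⟨a, ha⟩ := (Ideal.mem_span_range_iff_exists_fun (v := deh φ)).1 h2
  exact ⟨a, ha⟩

theorem eval_of_deh {m : ℕ} (hφ : ∀ l, (φ l).IsHomogeneous m) (l j : Fin (n + 1)) (c : k)
    (h : deh φ l = Polynomial.C c * deh φ j) (p : Fin 2 → k) [Infinite k] :
    MvPolynomial.eval p (φ l) = c * MvPolynomial.eval p (φ j) := by
  have h1 : φ l = MvPolynomial.C c * φ j := by
    have h2 : MvPolynomial.X 0 * (φ l - MvPolynomial.C c * φ j) = 0 := by
      refine MvPolynomial.funext fun q => ?_
      rw [map_mul, MvPolynomial.eval_X, map_zero, map_sub, map_mul, MvPolynomial.eval_C]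
      by_cases hq : q 0 = 0
      · rw [hq, zero_mul]
      · have h3 : q = fun i => q 0 * (![(1 : k), q 1 / q 0] i) := by
          funext i
          fin_cases i
          · simp
          · simp only [Fin.mk_one, Matrix.cons_val_one]
            rw [Matrix.cons_val_fin_one, mul_div_cancel₀ _ hq]
        have h4 : ∀ l, MvPolynomial.eval q (φ l) =
            q 0 ^ m * MvPolynomial.eval ![(1 : k), q 1 / q 0] (φ l) := by
          intro l
          conv_lhs => rw [h3]
          exact eval₂_smul_hom (RingHom.id k) (q 0) _ (hφ l)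
        rw [h4, h4, ← deh_eval, ← deh_eval, h, Polynomial.eval_mul, Polynomial.eval_C]
        ring
    rcases mul_eq_zero.1 h2 with h3 | h3
    · exact absurd h3 (MvPolynomial.X_ne_zero 0)
    · exact sub_eq_zero.1 h3
  rw [h1, map_mul, MvPolynomial.eval_C]

end Poly

section

attribute [local instance] MvPolynomial.gradedAlgebra

/-- A closed subscheme of projective space which contains a nonconstant parametrised rational curve
is not arithmetically hyperbolic. -/
theorem nah_curve (hPbc : PbcStatement) (hPft : PftStatement) (hSprd : SprdStatement)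
    (k : Type) [Field k] [IsAlgClosed k] [CharZero k] (n : ℕ)
    (Y : Over (Spec (CommRingCat.of k))) (i : Y.left ⟶ PP k n) (hi : IsClosedImmersion i)
    (hiY : i ≫ Gen.projStr k n = Y.hom) (m : ℕ) (φ : Fin (n + 1) → MvPolynomial (Fin 2) k)
    (hφ : ∀ l, (φ l).IsHomogeneous m)
    (hz : ∀ p : Fin 2 → k, p ≠ 0 → ∃ l, MvPolynomial.eval p (φ l) ≠ 0)
    (hnc : ∃ (l l' : Fin (n + 1)) (p q : Fin 2 → k), MvPolynomial.eval p (φ l) *
      MvPolynomial.eval q (φ l') ≠ MvPolynomial.eval q (φ l) * MvPolynomial.eval p (φ l'))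
    (hY : ∀ g : MvPolynomial (Fin (n + 1)) k, (∃ e, g.IsHomogeneous e) →
      (∀ y : Y.left, g ∈ (i.base y).asHomogeneousIdeal) →
      ∀ p : Fin 2 → k, MvPolynomial.eval (fun l => MvPolynomial.eval p (φ l)) g = 0) :
    ¬ Gen.IsAH k Y := by
  classical
  intro hAH
  obtain ⟨S, hS, hSR⟩ := hSprd k n Y.left i hi
  obtain ⟨a, ha⟩ := deh_span φ hz
  obtain ⟨R, hRft, hRS⟩ := Pool.Agent.Ell.H46.exists_subring
    (S ∪ ((⋃ l, ((deh φ l).coeffs : Set k)) ∪ (⋃ l, ((a l).coeffs : Set k))))
    (hS.union ((Set.finite_iUnion fun l => Finset.finite_toSet _).union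
      (Set.finite_iUnion fun l => Finset.finite_toSet _)))
  have heval : ∀ (f : Polynomial k), (↑f.coeffs : Set k) ⊆ R → ∀ t : ℕ, f.eval (t : k) ∈ R := by
    intro f hf t
    rw [Polynomial.eval_eq_sum, Polynomial.sum]
    refine R.sum_mem fun e he => R.mul_mem ?_ (R.pow_mem (natCast_mem R t) e)
    exact hf (Polynomial.coeff_mem_coeffs (Polynomial.mem_support_iff.1 he))
  have hRd : ∀ l (t : ℕ), (deh φ l).eval (t : k) ∈ R := fun l t =>
    heval _ (fun x hx => hRS (Or.inr (Or.inl (Set.mem_iUnion.2 ⟨l, hx⟩)))) t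
  have hRa : ∀ l (t : ℕ), (a l).eval (t : k) ∈ R := fun l t =>
    heval _ (fun x hx => hRS (Or.inr (Or.inr (Set.mem_iUnion.2 ⟨l, hx⟩)))) t
  have H := hSR R (fun s hs => hRS (Or.inl hs))
  have Hp := H.flip.paste_vert (hPbc R k R.subtype n)
  let M : Over (Spec (CommRingCat.of R)) :=
    Over.mk ((i ≫ prP R.subtype n).imageι ≫ strP R n)
  obtain ⟨h1, h2, h3⟩ := hPft R n
  -- the coordinate
  obtain ⟨j, hj⟩ : ∃ j, deh φ j ≠ 0 := by
    by_contra hcon
    push Not at hcon
    rw [Finset.sum_eq_zero fun l _ => by rw [hcon l, mul_zero]] at ha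
    exact zero_ne_one ha
  -- the sections
  let v : ℕ → Fin (n + 1) → R := fun t l => ⟨(deh φ l).eval (t : k), hRd l t⟩
  have hv : ∀ t, Ideal.span (Set.range (v t)) = ⊤ := by
    intro t
    rw [Ideal.eq_top_iff_one]
    refine (Ideal.mem_span_range_iff_exists_fun (v := v t)).2
      ⟨fun l => ⟨(a l).eval (t : k), hRa l t⟩, ?_⟩
    apply Subtype.ext
    have h4 := congrArg (Polynomial.eval (t : k)) ha
    rw [Polynomial.eval_finsetSum, Polynomial.eval_one] at h4
    push_cast
    rw [← h4]
    exact Finset.sum_congr rfl fun l _ => (Polynomial.eval_mul).symm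
  let T : Set ℕ := {t | (deh φ j).eval (t : k) ≠ 0}
  have hT : ∀ t : T, ((v t j : R) : k) ≠ 0 := fun t => t.2
  choose s p hp hs hpp hsp hc using fun t : T => sect' k n R j (v t) (hv t) (hT t)
  have hfac : ∀ t, ∃ s' : Spec (CommRingCat.of R) ⟶ M.left,
      s' ≫ (i ≫ prP R.subtype n).imageι = s t := by
    intro t
    refine Pool.Agent.Ell.H46.exists_lift (i ≫ prP R.subtype n).imageι (s t) fun x => ?_
    have hcl : IsClosed ((s t) ⁻¹' (Set.range (i ≫ prP R.subtype n).imageι)) :=
      (i ≫ prP R.subtype n).imageι.isClosedEmbedding.isClosed_range.preimage (s t).continuous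
    -- the generic point
    set η : Spec (CommRingCat.of R) :=
      Spec.map (CommRingCat.ofHom R.subtype) (IsLocalRing.closedPoint k) with hη
    have hη0 : η.asIdeal = ⊥ := by
      have h5 : η.asIdeal = Ideal.comap R.subtype (IsLocalRing.closedPoint k).asIdeal := rfl
      have h6 : (IsLocalRing.closedPoint k).asIdeal = ⊥ :=
        (IsLocalRing.isField_iff_maximalIdeal_eq.1 (Field.toIsField k))
      rw [h5, h6, ← RingHom.ker_eq_comap_bot]
      exact (RingHom.injective_iff_ker_eq_bot _).1 Subtype.val_injective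
    have hηx : η ⤳ x := by
      have h7 : (⟨η.asIdeal, η.isPrime⟩ : PrimeSpectrum R) ≤ ⟨x.asIdeal, x.isPrime⟩ := by
        change η.asIdeal ≤ x.asIdeal
        rw [hη0]
        exact bot_le
      exact (PrimeSpectrum.le_iff_specializes _ _).1 h7
    refine hηx.mem_closed hcl ?_
    change s t η ∈ Set.range (i ≫ prP R.subtype n).imageι
    -- the point of `Y`
    have hmem : (p t) (IsLocalRing.closedPoint k) ∈ Set.range i := by
      refine Pool.Agent.Ell.H46.mem_range_of_forms k n i _ fun G hG hGY => ?_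
      obtain ⟨e, he⟩ := hG
      have h8 := hY G ⟨e, he⟩ hGY ![1, ((t : ℕ) : k)]
      refine Pool.Agent.Ell.H46.mem_of_eval k n j (p t) (hp t) (hpp t) e G he ?_ _
      rw [hc t]
      have h9 := eval₂_smul_hom (RingHom.id k) ((v t j : R) : k)⁻¹
        (fun l => ((v t l : R) : k)) he
      have h10 : (fun l => ((v t l : R) : k)) =
          fun l => MvPolynomial.eval ![1, ((t : ℕ) : k)] (φ l) := by
        funext l
        exact deh_eval φ l _
      have h11 : MvPolynomial.eval₂ (RingHom.id k) (fun l => ((v t l : R) : k)) G = 0 := by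
        rw [h10]
        exact h8
      rw [h11, mul_zero] at h9
      refine Eq.trans ?_ h9
      change MvPolynomial.eval₂ (RingHom.id k) _ G = _
      congr 1
      funext l
      rw [div_eq_inv_mul]
    obtain ⟨y, hy⟩ := hmem
    have h9 : s t η = (prP R.subtype n) (i y) := by
      have h10 := congrArg (fun g : Spec (CommRingCat.of k) ⟶ PP R n =>
        g (IsLocalRing.closedPoint k)) (hsp t)
      rw [hy]
      exact h10
    rw [h9]
    refine ⟨(i ≫ prP R.subtype n).toImage y, ?_⟩
    have h11 := congrArg (fun g : Y.left ⟶ PP R n => g y)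
      (Scheme.Hom.toImage_imageι (i ≫ prP R.subtype n))
    exact h11
  choose s' hs' using hfac
  have heq : ∀ t u : T, s' t = s' u → ∀ l, ((v t l : R) : k) / (v t j : R) =
      ((v u l : R) : k) / (v u j : R) := by
    intro t u htu l
    have h5 : s t = s u := by rw [← hs' t, ← hs' u, htu]
    have h6 : p t = p u := by
      refine (hPbc R k R.subtype n).hom_ext ?_ ?_
      · rw [← hsp t, ← hsp u, h5]
      · exact (hpp t).trans (hpp u).symm
    have h7 : Gen.pcoord k n j (p t) (hp t) = Gen.pcoord k n j (p u) (hp u) := by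
      have : ∀ (q : Spec (CommRingCat.of k) ⟶ PP k n) (hq : ⊤ ≤ q ⁻¹ᵁ DP k n j), p t = q →
          Gen.pcoord k n j (p t) (hp t) = Gen.pcoord k n j q hq := by
        intro q hq h
        subst h
        rfl
      exact this _ _ h6
    rw [hc t, hc u] at h7
    exact congrFun h7 l
  have hfin := hAH R hRft M (by
      change IsSeparated ((i ≫ prP R.subtype n).imageι ≫ strP R n)
      infer_instance) (by
      change LocallyOfFiniteType ((i ≫ prP R.subtype n).imageι ≫ strP R n)
      infer_instance) (by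
      change QuasiCompact ((i ≫ prP R.subtype n).imageι ≫ strP R n)
      infer_instance) ⟨Hp.isoPullback.symm, by
        have h5 := Hp.isoPullback_inv_snd
        change Hp.isoPullback.inv ≫ Y.hom = _
        rw [← hiY]
        exact h5⟩
  have hmem : ∀ t : T, s' t ∈ {s : Spec (CommRingCat.of R) ⟶ M.left | s ≫ M.hom = 𝟙 _} := by
    intro t
    change s' t ≫ (i ≫ prP R.subtype n).imageι ≫ strP R n = 𝟙 _
    rw [← Category.assoc, hs' t]
    exact hs t
  have hTinf : Infinite T := by
    have h4 : {t : ℕ | (deh φ j).eval (t : k) = 0}.Finite := by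
      have h5 : ({x : k | (deh φ j).IsRoot x}).Finite := Polynomial.finite_setOfPred_isRoot hj
      exact h5.preimage (f := fun t : ℕ => (t : k)) (Nat.cast_injective.injOn)
    have h6 : T = {t : ℕ | (deh φ j).eval (t : k) = 0}ᶜ := rfl
    rw [h6]
    exact h4.infinite_compl.to_subtype
  -- infinitely many parameters with the same section
  obtain ⟨t0, ht0⟩ : ∃ t0 : T, {t : T | s' t = s' t0}.Infinite := by
    have : Finite ↑{s : Spec (CommRingCat.of R) ⟶ M.left | s ≫ M.hom = 𝟙 _} := hfin
    obtain ⟨y, hy⟩ := Finite.exists_infinite_fiber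
      (fun t : T => (⟨s' t, hmem t⟩ : ↑{s : Spec (CommRingCat.of R) ⟶ M.left | s ≫ M.hom = 𝟙 _}))
    obtain ⟨t0, ht0⟩ := hy.nonempty
    refine ⟨t0, ?_⟩
    refine Set.Infinite.mono ?_ (Set.infinite_coe_iff.1 hy)
    intro t ht
    have h4 := congrArg Subtype.val (ht.trans (Eq.symm ht0))
    exact h4
  have hprop : ∀ l, deh φ l =
      Polynomial.C (((v t0 l : R) : k) / (v t0 j : R)) * deh φ j := by
    intro l
    apply Polynomial.eq_of_infinite_eval_eq
    have h4 : (((fun t : T => ((t : ℕ) : k)) '' {t : T | s' t = s' t0})).Infinite :=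
      ht0.image (fun x _ y _ hxy => Subtype.ext (Nat.cast_injective hxy))
    refine h4.mono ?_
    rintro _ ⟨t, ht, rfl⟩
    have h5 := heq t t0 ht l
    have h6 : ((v t j : R) : k) ≠ 0 := hT t
    rw [Set.mem_ofPred_eq, Polynomial.eval_mul, Polynomial.eval_C, ← h5]
    exact (div_mul_cancel₀ _ h6).symm
  obtain ⟨l, l', q, q', hne⟩ := hnc
  apply hne
  rw [eval_of_deh φ hφ l j _ (hprop l) q, eval_of_deh φ hφ l' j _ (hprop l') q',
    eval_of_deh φ hφ l j _ (hprop l) q', eval_of_deh φ hφ l' j _ (hprop l') q]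
  ring

end

end Pool.Agent.LX.H87
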