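import Pool.Agent.Lib.MP_c7af3c_ag.ELL.H78.Sect

/-!
Sections of projective space over a subring given by unimodular vectors.
-/

set_option autoImplicit false

namespace Pool.Agent.LX.H87

open AlgebraicGeometry CategoryTheory CategoryTheory.Limits Pool.Agent.Ell
open Pool.Agent.Gen Pool.Agent.Gen.H38 HomogeneousLocalization
open Pool.Agent.Lib.MP_c7af3c_ag.ELL.H78
open MvPolynomial (homogeneousSubmodule)

theorem eval₂_smul_hom {A K σ : Type*} [CommRing A] [CommRing K] (g : A →+* K) (c : K)
    (z : σ → K) {F : MvPolynomial σ A} {d : ℕ} (hF : F.IsHomogeneous d) :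
    MvPolynomial.eval₂ g (fun l => c * z l) F = c ^ d * MvPolynomial.eval₂ g z F := by
  rw [MvPolynomial.eval₂_eq, MvPolynomial.eval₂_eq, Finset.mul_sum]
  refine Finset.sum_congr rfl fun m hm => ?_
  have h1 : m.degree = d := by
    by_contra hne
    exact (MvPolynomial.mem_support_iff.1 hm) (hF.coeff_eq_zero hne)
  have h2 : ∏ i ∈ m.support, (c * z i) ^ m i = c ^ d * ∏ i ∈ m.support, z i ^ m i := by
    rw [← h1, Finset.prod_congr rfl fun i _ => mul_pow c (z i) (m i), Finset.prod_mul_distrib,
      Finset.prod_pow_eq_pow_sum]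
    rfl
  rw [h2]
  ring

section

attribute [local instance] MvPolynomial.gradedAlgebra

variable (A : Type) [CommRing A] (n : ℕ) (v : Fin (n + 1) → A)

/-- The ring homomorphism from the polynomial ring to the global functions given by a vector. -/
noncomputable def fv : MvPolynomial (Fin (n + 1)) A →+* Γ(Spec (CommRingCat.of A), ⊤) :=
  ((Scheme.ΓSpecIso (CommRingCat.of A)).inv.hom).comp
    (MvPolynomial.eval₂Hom (RingHom.id A) v)

theorem fv_irr (hv : Ideal.span (Set.range v) = ⊤) :
    (HomogeneousIdeal.irrelevant (homogeneousSubmodule (Fin (n + 1)) A)).toIdeal.map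
      (fv A n v) = ⊤ := by
  have h1 : ∀ j : Fin (n + 1), (MvPolynomial.X j : MvPolynomial (Fin (n + 1)) A) ∈
      (HomogeneousIdeal.irrelevant (homogeneousSubmodule (Fin (n + 1)) A)).toIdeal := fun j =>
    HomogeneousIdeal.mem_irrelevant_of_mem _ Nat.one_pos
      ((MvPolynomial.mem_homogeneousSubmodule 1 _).2 (MvPolynomial.isHomogeneous_X A j))
  have h2 : (Ideal.span (Set.range v)).map ((Scheme.ΓSpecIso (CommRingCat.of A)).inv.hom) ≤
      (HomogeneousIdeal.irrelevant (homogeneousSubmodule (Fin (n + 1)) A)).toIdeal.map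
      (fv A n v) := by
    rw [Ideal.map_span, Ideal.span_le]
    rintro _ ⟨_, ⟨j, rfl⟩, rfl⟩
    have h3 := Ideal.mem_map_of_mem (fv A n v) (h1 j)
    unfold fv at h3
    rw [RingHom.comp_apply, MvPolynomial.eval₂Hom_X'] at h3
    exact h3
  rw [hv, Ideal.map_top] at h2
  exact top_le_iff.1 h2

/-- The section. -/
noncomputable def usec (hv : Ideal.span (Set.range v) = ⊤) :
    Spec (CommRingCat.of A) ⟶ PP A n :=
  Proj.fromOfGlobalSections (homogeneousSubmodule (Fin (n + 1)) A) (fv A n v) (fv_irr A n v hv)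

theorem usec_str (hv : Ideal.span (Set.range v) = ⊤) : usec A n v hv ≫ strP A n = 𝟙 _ := by
  unfold usec strP
  rw [← Category.assoc, Proj.fromOfGlobalSections_toSpecZero, Category.assoc, ← Spec.map_comp,
    ← CommRingCat.ofHom_comp]
  have h1 : ((fv A n v).comp (algebraMap (homogeneousSubmodule (Fin (n + 1)) A 0)
      (MvPolynomial (Fin (n + 1)) A))).comp
      (algebraMap A (homogeneousSubmodule (Fin (n + 1)) A 0)) =
      (Scheme.ΓSpecIso (CommRingCat.of A)).inv.hom := by
    refine RingHom.ext fun a => ?_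
    change (fv A n v) (MvPolynomial.C a) = _
    unfold fv
    rw [RingHom.comp_apply, MvPolynomial.eval₂Hom_C]
    rfl
  rw [h1, CommRingCat.ofHom_hom]
  simp

/-- The section and its base change to a field. -/
theorem usec_base (hv : Ideal.span (Set.range v) = ⊤) {K : Type} [Field K] (g : A →+* K)
    (j : Fin (n + 1)) (hj : g (v j) ≠ 0) (hz : (fun l => g (v l) / g (v j)) j = 1) :
    Spec.map (CommRingCat.ofHom g) ≫ usec A n v hv =
      sec n j (fun l => g (v l) / g (v j)) hz ≫ prP g n := by
  set X : Scheme.{0} := Spec (CommRingCat.of A) with hX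
  set x : Γ(X, ⊤) := fv A n v (MvPolynomial.X j) with hx
  set h : Spec (CommRingCat.of K) ⟶ X := Spec.map (CommRingCat.ofHom g) with hh
  have hxv : x = (Scheme.ΓSpecIso (CommRingCat.of A)).inv.hom (v j) := by
    rw [hx]
    unfold fv
    rw [RingHom.comp_apply, MvPolynomial.eval₂Hom_X']
  -- the image is in the basic open subset
  have hpre : h ⁻¹ᵁ X.basicOpen x = ⊤ := by
    rw [Scheme.preimage_basicOpen]
    apply Scheme.basicOpen_of_isUnit
    have h1 := Scheme.ΓSpecIso_inv_naturality (CommRingCat.ofHom g)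
    have h2 : h.appTop x = (Scheme.ΓSpecIso (CommRingCat.of K)).inv.hom (g (v j)) := by
      rw [hxv]
      exact (congrArg (fun f => f.hom (v j)) h1).symm
    change IsUnit (h.appTop x)
    rw [h2]
    exact (isUnit_iff_ne_zero.2 hj).map _
  have hrange : Set.range h ⊆ Set.range (X.basicOpen x).ι := by
    rw [Scheme.Opens.range_ι]
    rintro _ ⟨z, rfl⟩
    have : z ∈ h ⁻¹ᵁ X.basicOpen x := by rw [hpre]; trivial
    exact this
  set h' := IsOpenImmersion.lift (X.basicOpen x).ι h hrange with hh'
  have hh'ι : h' ≫ (X.basicOpen x).ι = h := IsOpenImmersion.lift_fac _ _ _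
  have hs : (X.basicOpen x).ι ≫ usec A n v hv =
      Proj.toBasicOpenOfGlobalSections (homogeneousSubmodule (Fin (n + 1)) A) (fv A n v) rfl
        Nat.one_pos (Xm A n j) ≫ (Proj.basicOpen (homogeneousSubmodule (Fin (n + 1)) A)
          (MvPolynomial.X j)).ι := by
    rw [← Proj.fromOfGlobalSections_resLE (homogeneousSubmodule (Fin (n + 1)) A) (fv A n v)
      (fv_irr A n v hv) Nat.one_pos (Xm A n j), Scheme.Hom.resLE_comp_ι]
    rfl
  have hs2 : h ≫ usec A n v hv = h' ≫ Proj.toBasicOpenOfGlobalSections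
      (homogeneousSubmodule (Fin (n + 1)) A) (fv A n v) rfl
        Nat.one_pos (Xm A n j) ≫ (Proj.basicOpen (homogeneousSubmodule (Fin (n + 1)) A)
          (MvPolynomial.X j)).ι := by
    rw [← hs, ← Category.assoc, hh'ι]
  rw [hs2]
  unfold Proj.toBasicOpenOfGlobalSections
  simp only [Category.assoc, Proj.basicOpenIsoSpec_inv_ι]
  set θ := (RingHom.comp (IsLocalization.map (M := .powers (MvPolynomial.X j :
    MvPolynomial (Fin (n + 1)) A)) (T := .powers x) (Localization.Away x) (fv A n v) (by
      rw [← Submonoid.map_le_iff_le_comap, Submonoid.map_powers]))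
    (algebraMap (Away (homogeneousSubmodule (Fin (n + 1)) A)
      (MvPolynomial.X j : MvPolynomial (Fin (n + 1)) A))
      (Localization.Away (MvPolynomial.X j : MvPolynomial (Fin (n + 1)) A)))) with hθ
  set w : Spec (CommRingCat.of K) ⟶ Spec (CommRingCat.of (Localization.Away x)) :=
    h' ≫ (X.isoOfEq (X.toSpecΓ_preimage_basicOpen x)).inv ≫ X.toSpecΓ ∣_ _ ≫
      (basicOpenIsoSpecAway _).hom with hw
  obtain ⟨ω, hω⟩ := Spec.map_surjective w
  have hω2 : CommRingCat.ofHom (algebraMap Γ(X, ⊤) (Localization.Away x)) ≫ ω =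
      (Scheme.ΓSpecIso (CommRingCat.of A)).hom ≫ CommRingCat.ofHom g := by
    apply Spec.map_injective
    rw [Spec.map_comp, hω, hw]
    simp only [Category.assoc]
    rw [basicOpenIsoSpecAway_hom_SpecMap, morphismRestrict_ι, Scheme.isoOfEq_inv_ι_assoc,
      ← Category.assoc, hh'ι, Spec.map_comp]
    congr 1
    rw [← cancel_mono (Spec.map (Scheme.ΓSpecIso (CommRingCat.of A)).inv), ← Spec.map_comp,
      Iso.inv_hom_id, Spec.map_id]
    exact toSpecΓ_SpecMap_ΓSpecIso_inv _
  have hω3 : ∀ F : MvPolynomial (Fin (n + 1)) A,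
      ω.hom (algebraMap Γ(X, ⊤) (Localization.Away x) (fv A n v F)) =
        g (MvPolynomial.eval₂ (RingHom.id A) v F) := by
    intro F
    have h1 := congrArg (fun f => f.hom (fv A n v F)) hω2
    refine Eq.trans h1 ?_
    change g ((Scheme.ΓSpecIso (CommRingCat.of A)).hom.hom ((Scheme.ΓSpecIso
      (CommRingCat.of A)).inv.hom (MvPolynomial.eval₂ (RingHom.id A) v F))) = _
    congr 1
    exact congrArg (fun f => f.hom (MvPolynomial.eval₂ (RingHom.id A) v F))
      (Scheme.ΓSpecIso (CommRingCat.of A)).inv_hom_id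
  trans Spec.map (CommRingCat.ofHom (ω.hom.comp θ)) ≫
      Proj.awayι (homogeneousSubmodule (Fin (n + 1)) A) (MvPolynomial.X j) (Xm A n j)
      Nat.one_pos
  · have e : Spec.map (CommRingCat.ofHom (ω.hom.comp θ)) =
        w ≫ Spec.map (CommRingCat.ofHom θ) := by
      rw [CommRingCat.ofHom_comp, CommRingCat.ofHom_hom, Spec.map_comp, hω]
    rw [e]
    simp only [hw, hθ, CommRingCat.ofHom_comp, Category.assoc]
    rfl
  unfold sec prP
  rw [Category.assoc, key (gmap g n) (gmap_irr g n) one_pos (MvPolynomial.X j)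
    (MvPolynomial.X j) (MvPolynomial.map_X g j) (Xm A n j) (Xm K n j)
    (evA n j (RingHom.id K) (fun l => g (v l) / g (v j)) hz) (ω.hom.comp θ) ?_]
  intro d F hF hF'
  rw [evA_mk]
  have h1 : gmap g n F = MvPolynomial.map g F := rfl
  rw [h1, RingHom.comp_apply]
  simp only [MvPolynomial.coe_eval₂Hom]
  rw [MvPolynomial.eval₂_map, RingHom.id_comp]
  -- the value of the fraction
  have h2 : θ (Away.mk (homogeneousSubmodule (Fin (n + 1)) A) (Xm A n j) d F hF) *
      algebraMap Γ(X, ⊤) (Localization.Away x) (x ^ d) =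
      algebraMap Γ(X, ⊤) (Localization.Away x) (fv A n v F) := by
    have h3 : (Away.mk (homogeneousSubmodule (Fin (n + 1)) A) (Xm A n j) d F hF).val *
        algebraMap (MvPolynomial (Fin (n + 1)) A)
        (Localization (Submonoid.powers (MvPolynomial.X j : MvPolynomial (Fin (n + 1)) A)))
        (MvPolynomial.X j ^ d) = algebraMap (MvPolynomial (Fin (n + 1)) A)
        (Localization (Submonoid.powers (MvPolynomial.X j : MvPolynomial (Fin (n + 1)) A)))
        F := by
      rw [Away.val_mk, ← Localization.mk_one_eq_algebraMap, ← Localization.mk_one_eq_algebraMap,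
        Localization.mk_mul, Localization.mk_eq_mk_iff, Localization.r_iff_exists]
      refine ⟨1, ?_⟩
      simp [mul_comm]
    have h4 := congrArg (IsLocalization.map (M := .powers (MvPolynomial.X j :
      MvPolynomial (Fin (n + 1)) A)) (T := .powers x) (Localization.Away x) (fv A n v) (by
        rw [← Submonoid.map_le_iff_le_comap, Submonoid.map_powers])) h3
    rw [map_mul, IsLocalization.map_eq, IsLocalization.map_eq, map_pow (fv A n v)] at h4
    exact h4
  have h5 := congrArg ω.hom h2
  rw [map_mul, map_pow, map_pow, hω3, hω3, MvPolynomial.eval₂_X] at h5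
  have h6 : g (MvPolynomial.eval₂ (RingHom.id A) v F) =
      g (v j) ^ d * MvPolynomial.eval₂ g (fun l => g (v l) / g (v j)) F := by
    have h7 := MvPolynomial.eval₂_comp_left g (RingHom.id A) v F
    have h8 := eval₂_smul_hom g (g (v j)) (fun l => g (v l) / g (v j))
      ((MvPolynomial.mem_homogeneousSubmodule _ _).1 hF)
    have h9 : (fun l => g (v j) * (g (v l) / g (v j))) = g ∘ v := by
      funext l
      rw [mul_div_cancel₀ _ hj]
      rfl
    rw [h9, smul_eq_mul, mul_one] at h8
    rw [h7, RingHom.comp_id, h8]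
  rw [h6, mul_comm] at h5
  exact (mul_left_cancel₀ (pow_ne_zero d hj) h5).symm

/-- The sections of projective space over a subring given by unimodular vectors. -/
theorem sect' (k : Type) [Field k] (n : ℕ) (R : Subring k) (j : Fin (n + 1))
    (v : Fin (n + 1) → R) (hu : Ideal.span (Set.range v) = ⊤) (hj : (v j : k) ≠ 0) :
    ∃ (s : Spec (CommRingCat.of R) ⟶ PP R n) (p : Spec (CommRingCat.of k) ⟶ PP k n)
      (h : ⊤ ≤ p ⁻¹ᵁ DP k n j), s ≫ strP R n = 𝟙 _ ∧ p ≫ Gen.projStr k n = 𝟙 _ ∧
      Spec.map (CommRingCat.ofHom R.subtype) ≫ s = p ≫ prP R.subtype n ∧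
      Gen.pcoord k n j p h = fun l => (v l : k) / (v j : k) := by
  have hz : (fun l => R.subtype (v l) / R.subtype (v j)) j = 1 := div_self hj
  obtain ⟨h, hh⟩ := sec_coord k n j (fun l => R.subtype (v l) / R.subtype (v j)) hz
  exact ⟨usec R n v hu, sec n j (fun l => R.subtype (v l) / R.subtype (v j)) hz, h,
    usec_str R n v hu, sec_str n j _ hz, usec_base R n v hu R.subtype j hj hz, hh⟩

end

end Pool.Agent.LX.H87
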