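import Pool.Agent.Lib.MP_c7af3c_ag.LX.H87.Curve
import Pool.Agent.Lib.MP_c7af3c_ag.LX.H87.Sect

/-!
Removing the base points of a rational curve.
-/

set_option autoImplicit false

namespace Pool.Agent.LX.H87

open MvPolynomial

section

variable {k : Type} [Field k]

/-- the linear form vanishing at `p` -/
noncomputable def lin (p : Fin 2 → k) : MvPolynomial (Fin 2) k :=
  C (p 1) * X 0 - C (p 0) * X 1

theorem lin_hom (p : Fin 2 → k) : (lin p).IsHomogeneous 1 := by
  unfold lin
  refine IsHomogeneous.sub ?_ ?_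
  · have := (isHomogeneous_C (Fin 2) (p 1)).mul (isHomogeneous_X k (0 : Fin 2))
    simpa using this
  · have := (isHomogeneous_C (Fin 2) (p 0)).mul (isHomogeneous_X k (1 : Fin 2))
    simpa using this

theorem lin_ne {p : Fin 2 → k} (hp : p ≠ 0) : lin p ≠ 0 := by
  intro h
  apply hp
  have h1 : eval ![1, 0] (lin p) = 0 := by rw [h, map_zero]
  have h2 : eval ![0, 1] (lin p) = 0 := by rw [h, map_zero]
  unfold lin at h1 h2
  simp at h1 h2
  funext i
  fin_cases i
  · exact h2
  · exact h1

theorem lin_dvd (f : MvPolynomial (Fin 2) k) (m : ℕ) (hf : f.IsHomogeneous m) (p : Fin 2 → k)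
    (hp : p ≠ 0) (h0 : eval p f = 0) : lin p ∣ f := by
  rw [← Ideal.mem_span_singleton, ← Ideal.Quotient.eq_zero_iff_mem]
  obtain ⟨j, hj⟩ : ∃ j, p j ≠ 0 := by
    by_contra hc
    push Not at hc
    exact hp (funext hc)
  set q := Ideal.Quotient.mk (Ideal.span {lin p}) with hq
  have h1 : ∀ i, q (C (p j) * X i) = q (C (p i) * X j) := by
    intro i
    rw [hq, Ideal.Quotient.eq, Ideal.mem_span_singleton]
    unfold lin
    fin_cases i <;> fin_cases j
    · simp
    · simp
    · refine ⟨-1, ?_⟩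
      simp
    · simp
  have h2 : ∀ i, q (X i) = q (X j) * q (C (p i / p j)) := by
    intro i
    have h3 : (X i : MvPolynomial (Fin 2) k) = C (p j)⁻¹ * (C (p j) * X i) := by
      rw [← mul_assoc, ← C_mul, inv_mul_cancel₀ hj, C_1, one_mul]
    rw [h3, map_mul, h1 i, ← map_mul, ← map_mul]
    congr 1
    rw [← mul_assoc, ← C_mul, div_eq_mul_inv, mul_comm (X j), mul_comm (p i)]
  have h4 : q f = eval₂ (q.comp C) (fun i => q (X i)) f := by
    have h5 := eval₂_comp_left q (C : k →+* MvPolynomial (Fin 2) k) X f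
    rw [eval₂_eta] at h5
    exact h5
  have h6 : eval₂ (q.comp C) (fun i => q (C (p i / p j))) f =
      q (C (eval (fun i => p i / p j) f)) := by
    have h7 := eval₂_comp_left (q.comp C) (RingHom.id k) (fun i => p i / p j) f
    rw [RingHom.comp_id] at h7
    exact h7.symm
  have h8 : eval (fun i => p i / p j) f = (p j)⁻¹ ^ m * eval p f := by
    have h9 := eval₂_smul_hom (RingHom.id k) (p j)⁻¹ p hf
    have h10 : (fun i => p i / p j) = fun i => (p j)⁻¹ * p i := by
      funext i
      rw [div_eq_mul_inv, mul_comm]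
    rw [h10]
    exact h9
  rw [h4, funext h2, eval₂_smul_hom (q.comp C) (q (X j)) _ hf, h6, h8, h0, mul_zero, C_0,
    map_zero, mul_zero]

theorem lin_div (f : MvPolynomial (Fin 2) k) (m : ℕ) (hf : f.IsHomogeneous (m + 1))
    (p : Fin 2 → k) (hp : p ≠ 0) (h0 : eval p f = 0) :
    ∃ g : MvPolynomial (Fin 2) k, g.IsHomogeneous m ∧ f = lin p * g := by
  obtain ⟨g, hg⟩ := lin_dvd f (m + 1) hf p hp h0
  refine ⟨homogeneousComponent m g, homogeneousComponent_isHomogeneous m g, ?_⟩
  have h1 : homogeneousComponent (m + 1) f = f := by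
    rw [homogeneousComponent_of_mem hf, if_pos rfl]
  have h2 : homogeneousComponent (m + 1) (lin p * g) = lin p * homogeneousComponent m g := by
    classical
    conv_lhs => rw [← sum_homogeneousComponent g]
    rw [Finset.mul_sum, map_sum]
    have h3 : ∀ i, homogeneousComponent (m + 1) (lin p * homogeneousComponent i g) =
        if i = m then lin p * homogeneousComponent m g else 0 := by
      intro i
      have h4 : (lin p * homogeneousComponent i g).IsHomogeneous (1 + i) :=
        (lin_hom p).mul (homogeneousComponent_isHomogeneous i g)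
      rw [homogeneousComponent_of_mem h4]
      by_cases hi : i = m
      · rw [if_pos hi, if_pos (by omega), hi]
      · rw [if_neg hi, if_neg (by omega)]
    rw [Finset.sum_congr rfl fun i _ => h3 i, Finset.sum_ite_eq' _ m]
    split_ifs with h5
    · rfl
    · rw [Finset.mem_range, not_lt] at h5
      rw [homogeneousComponent_eq_zero _ _ (by omega), mul_zero]
  rw [← h2, ← hg, h1]

end

/-- A rational curve can be parametrised without base points. -/
theorem RatCurve.reduced {k : Type} [Field k] [Infinite k] {n : ℕ} {ι : Type}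
    {F : ι → MvPolynomial (Fin (n + 1)) k} {d : ι → ℕ} (hF : ∀ j, (F j).IsHomogeneous (d j))
    (h : RatCurve k n F) :
    ∃ (m : ℕ) (φ : Fin (n + 1) → MvPolynomial (Fin 2) k), (∀ l, (φ l).IsHomogeneous m) ∧
      (∀ j, aeval φ (F j) = 0) ∧
      (∀ p : Fin 2 → k, p ≠ 0 → ∃ l, eval p (φ l) ≠ 0) ∧
      ∃ (l l' : Fin (n + 1)) (p q : Fin 2 → k),
        eval p (φ l) * eval q (φ l') ≠ eval q (φ l) * eval p (φ l') := by
  classical
  set P : ℕ → Prop := fun m => ∃ (φ : Fin (n + 1) → MvPolynomial (Fin 2) k),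
    (∀ l, (φ l).IsHomogeneous m) ∧ (∀ j, aeval φ (F j) = 0) ∧
      ∃ (l l' : Fin (n + 1)) (p q : Fin 2 → k),
        eval p (φ l) * eval q (φ l') ≠ eval q (φ l) * eval p (φ l') with hP
  have hex : ∃ m, P m := by
    obtain ⟨m, φ, h1, h2, h3⟩ := h
    exact ⟨m, φ, h1, h2, h3⟩
  obtain ⟨φ, h1, h2, h3⟩ := Nat.find_spec hex
  refine ⟨Nat.find hex, φ, h1, h2, ?_, h3⟩
  by_contra hc
  push Not at hc
  obtain ⟨p, hp, hpz⟩ := hc
  obtain ⟨m, hm⟩ : ∃ m, Nat.find hex = m + 1 := by
    refine ⟨Nat.find hex - 1, ?_⟩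
    have : Nat.find hex ≠ 0 := by
      intro h0
      obtain ⟨l, l', q, r, hqr⟩ := h3
      have h4 : ∀ l, φ l = 0 := by
        intro l
        have h5 : φ l = C (coeff 0 (φ l)) :=
          totalDegree_eq_zero_iff_eq_C.1
            ((totalDegree_zero_iff_isHomogeneous _).2 (h0 ▸ h1 l))
        have h6 := hpz l
        rw [h5, eval_C] at h6
        rw [h5, h6, C_0]
      apply hqr
      rw [h4, h4]
      simp
    omega
  have h4 : ∀ l, ∃ g : MvPolynomial (Fin 2) k, g.IsHomogeneous m ∧ φ l = lin p * g := fun l =>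
    lin_div (φ l) m (hm ▸ h1 l) p hp (hpz l)
  choose ψ hψ1 hψ2 using h4
  have h5 : P m := by
    refine ⟨ψ, hψ1, fun j => ?_, ?_⟩
    · have h6 := h2 j
      have h7 : aeval φ (F j) = (lin p) ^ d j * aeval ψ (F j) := by
        have h8 := eval₂_smul_hom (algebraMap k (MvPolynomial (Fin 2) k)) (lin p) ψ (hF j)
        rw [aeval_def, aeval_def, ← h8]
        congr 1
        funext l
        exact hψ2 l
      rw [h7] at h6
      rcases mul_eq_zero.1 h6 with h8 | h8
      · exact absurd h8 (pow_ne_zero _ (lin_ne hp))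
      · exact h8
    · obtain ⟨l, l', q, r, hqr⟩ := h3
      refine ⟨l, l', q, r, fun h6 => hqr ?_⟩
      rw [hψ2 l, hψ2 l', map_mul, map_mul, map_mul, map_mul]
      linear_combination (eval q (lin p) * eval r (lin p)) * h6
  exact Nat.find_min hex (by omega) h5

end Pool.Agent.LX.H87
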