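import Pool.Agent.Lib.MP_c7af3c_ag.LX.H87.Map
import Pool.Agent.Lib.MP_c7af3c_ag.LX.H87.Nah
import Pool.Agent.Lib.MP_c7af3c_ag.LX.H87.Red
import Pool.Agent.Lib.MP_c7af3c_ag.EDGE.H46.Low

/-!
A closed subscheme of projective space which contains a parametrised rational curve is neither
groupless nor arithmetically hyperbolic.
-/

set_option autoImplicit false

namespace Pool.Agent.LX.H87

open AlgebraicGeometry CategoryTheory CategoryTheory.Limits Pool.Agent.Ell
open MvPolynomial (homogeneousSubmodule)

section

attribute [local instance] MvPolynomial.gradedAlgebra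

/-- A closed subscheme of projective space which contains a nonconstant parametrised rational curve
is not groupless. -/
theorem ngl_curve (hI : InteStatement) (hP : PropStatement) (hGrp : GrpStatement)
    (hPtc : PtcStatement) (hA : AffStatement) (hPts : PtsStatement)
    (hMor : MorStatement)
    (k : Type) [Field k] [IsAlgClosed k] [CharZero k] (n : ℕ)
    (Y : Over (Spec (CommRingCat.of k))) (i : Y.left ⟶ PP k n) (hi : IsClosedImmersion i)
    (hiY : i ≫ Gen.projStr k n = Y.hom) (m : ℕ) (φ : Fin (n + 1) → MvPolynomial (Fin 2) k)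
    (hφ : ∀ l, (φ l).IsHomogeneous m)
    (hz : ∀ p : Fin 2 → k, p ≠ 0 → ∃ l, MvPolynomial.eval p (φ l) ≠ 0)
    (hnc : ∃ (l l' : Fin (n + 1)) (p q : Fin 2 → k), MvPolynomial.eval p (φ l) *
      MvPolynomial.eval q (φ l') ≠ MvPolynomial.eval q (φ l) * MvPolynomial.eval p (φ l'))
    (hY : ∀ g : MvPolynomial (Fin (n + 1)) k, (∃ e, g.IsHomogeneous e) →
      (∀ y : Y.left, g ∈ (i.base y).asHomogeneousIdeal) →
      ∀ p : Fin 2 → k, MvPolynomial.eval (fun l => MvPolynomial.eval p (φ l)) g = 0) :
    ¬ Gen.IsGL k Y := by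
  intro hgl
  obtain ⟨gE⟩ := hGrp k
  obtain ⟨hint, hlft, -⟩ := hI k
  have hprop := hP k
  have hEint : AlgebraicGeometry.IsIntegral (EE k).left := hint
  have hElft : LocallyOfFiniteType (EE k).hom := hlft
  obtain ⟨g, ⟨P, Q, hPQ⟩, hg⟩ := ratmap hPtc hA hPts hMor hI k n m φ hφ hz hnc
  have hrange : ∀ x : (EE k).left, g.left x ∈ Set.range i := by
    refine Ell.H46.range_of_closed i g.left k (EE k).hom fun p hp => ?_
    let p' : PT k ⟶ EE k := Over.homMk p hp
    set x : PP k n := (p ≫ g.left) (IsLocalRing.closedPoint k) with hx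
    obtain ⟨j, hj⟩ := (Gen.H38.projFacts k n).chart x
    have hsub : ⊤ ≤ (p' ≫ g).left ⁻¹ᵁ DP k n j := by
      intro z _
      have hz : z = IsLocalRing.closedPoint k :=
        @Subsingleton.elim (Spec (CommRingCat.of k)) _ _ _
      rw [hz]
      exact hj
    obtain ⟨c, s, hst⟩ := hg p' j hsub
    have hpt : (p' ≫ g).left ≫ Gen.projStr k n = 𝟙 _ := by
      have h1 := Over.w (p' ≫ g)
      exact h1
    refine Ell.H46.mem_range_of_forms k n i x fun G hG hGY => ?_
    obtain ⟨e, he⟩ := hG
    have h2 : MvPolynomial.eval (fun l => c * MvPolynomial.eval s (φ l)) G = 0 := by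
      have h3 := eval₂_smul_hom (RingHom.id k) c (fun l => MvPolynomial.eval s (φ l)) he
      have h4 : MvPolynomial.eval₂ (RingHom.id k) (fun l => MvPolynomial.eval s (φ l)) G = 0 :=
        hY G ⟨e, he⟩ hGY s
      rw [h4, mul_zero] at h3
      exact h3
    rw [← hst] at h2
    exact Ell.H46.mem_of_eval k n j (p' ≫ g).left hsub hpt e G he h2 (IsLocalRing.closedPoint k)
  obtain ⟨g', hg'⟩ := Ell.H46.exists_lift i g.left hrange
  have hg'Y : g' ≫ Y.hom = (EE k).hom := by
    rw [← hiY, ← Category.assoc, hg']
    exact Over.w g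
  have hconst := hgl inferInstance (EE k) gE hEint hprop (Over.homMk g' hg'Y)
    (P.left (IsLocalRing.closedPoint k)) (Q.left (IsLocalRing.closedPoint k))
  apply hPQ
  apply Over.OverMorphism.ext
  have hlftP : LocallyOfFiniteType (Gen.projStr k n) := inferInstance
  refine ext_of_apply_closedPoint_eq (Gen.projStr k n) (Over.w (P ≫ g)) (Over.w (Q ≫ g)) ?_
  have h3 : ∀ R : PT k ⟶ EE k, (R ≫ g).left (IsLocalRing.closedPoint k) =
      i (g' (R.left (IsLocalRing.closedPoint k))) := by
    intro R
    have h4 : (R ≫ g).left = R.left ≫ g' ≫ i := by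
      rw [hg', Over.comp_left]
    rw [h4]
    rfl
  rw [h3, h3]
  exact congrArg i hconst

/-- A closed subscheme of projective space with the points of `F = 0`, where `F = 0` contains a
rational curve, is neither groupless nor arithmetically hyperbolic. -/
theorem neither (k : Type) [Field k] [IsAlgClosed k] [CharZero k] (n : ℕ) {ι : Type}
    (d : ι → ℕ) (F : ι → MvPolynomial (Fin (n + 1)) k)
    (hF : ∀ m, (F m).IsHomogeneous (d m)) (hrc : RatCurve k n F)
    (Y : Over (Spec (CommRingCat.of k))) (i : Y.left ⟶ PP k n) (hi : IsClosedImmersion i)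
    (hiY : i ≫ Gen.projStr k n = Y.hom)
    (hset : ∀ p : PP k n, (∀ m, F m ∈ p.asHomogeneousIdeal) → p ∈ Set.range i.base) :
    ¬ Gen.IsGL k Y ∧ ¬ Gen.IsAH k Y := by
  obtain ⟨m, φ, hφ, hF0, hz, hnc⟩ := hrc.reduced hF
  have hY : ∀ g : MvPolynomial (Fin (n + 1)) k, (∃ e, g.IsHomogeneous e) →
      (∀ y : Y.left, g ∈ (i.base y).asHomogeneousIdeal) →
      ∀ p : Fin 2 → k, MvPolynomial.eval (fun l => MvPolynomial.eval p (φ l)) g = 0 := by
    rintro g ⟨e, he⟩ hgY p
    have key : ∀ p : Fin 2 → k, p ≠ 0 →
        MvPolynomial.eval (fun l => MvPolynomial.eval p (φ l)) g = 0 := by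
      intro p hp
      have hFp : ∀ m, MvPolynomial.eval (fun l => MvPolynomial.eval p (φ l)) (F m) = 0 := by
        intro m
        have h1 := congrArg (MvPolynomial.eval p) (hF0 m)
        rw [map_zero, MvPolynomial.aeval_def, MvPolynomial.eval₂_comp_left] at h1
        have h2 : (MvPolynomial.eval p).comp (algebraMap k (MvPolynomial (Fin 2) k)) =
            RingHom.id k := by
          ext a
          simp
        rw [h2] at h1
        exact h1
      obtain ⟨l, hl⟩ := hz p hp
      obtain ⟨x, hx⟩ := Edge.H46.exists_point k n (fun l => MvPolynomial.eval p (φ l))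
        (fun h => hl (congrFun h l))
      obtain ⟨y, hy⟩ := hset x fun m => by
        rw [hx (F m) (d m) (hF m)]
        exact hFp m
      rw [← hx g e he, ← hy]
      exact hgY y
    by_cases hp : p = 0
    · have h1 : MvPolynomial.X 0 * MvPolynomial.aeval φ g = 0 := by
        have hk : Infinite k := IsAlgClosed.instInfinite
        refine MvPolynomial.funext fun q => ?_
        rw [map_mul, map_zero, MvPolynomial.eval_X]
        by_cases hq : q = 0
        · rw [hq]
          simp
        · have h2 := key q hq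
          have h3 : MvPolynomial.eval q (MvPolynomial.aeval φ g) =
              MvPolynomial.eval (fun l => MvPolynomial.eval q (φ l)) g := by
            rw [MvPolynomial.aeval_def, MvPolynomial.eval₂_comp_left]
            have h4 : (MvPolynomial.eval q).comp (algebraMap k (MvPolynomial (Fin 2) k)) =
                RingHom.id k := by
              ext a
              simp
            rw [h4]
            rfl
          rw [h3, h2, mul_zero]
      rcases mul_eq_zero.1 h1 with h2 | h2
      · exact absurd h2 (MvPolynomial.X_ne_zero 0)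
      · have h1 := congrArg (MvPolynomial.eval p) h2
        rw [map_zero, MvPolynomial.aeval_def, MvPolynomial.eval₂_comp_left] at h1
        have h2 : (MvPolynomial.eval p).comp (algebraMap k (MvPolynomial (Fin 2) k)) =
            RingHom.id k := by
          ext a
          simp
        rw [h2] at h1
        exact h1
    · exact key p hp
  exact ⟨ngl_curve Ell.H48.inte prop grp Lib.MP_c7af3c_ag.ELL.H86.ptc
    Lib.MP_c7af3c_ag.ELL.H86.affm pts Ell.H94.mor k n Y i hi hiY m φ hφ hz hnc hY,
    nah_curve Ell.H30.pbc Ell.H30.pft Ell.H46.sprd k n Y i hi hiY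
      m φ hφ hz hnc hY⟩

end

end Pool.Agent.LX.H87
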