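import Pool.Agent.Lib.MP_c7af3c_ag.LX.H87.K222
import Pool.Agent.Lib.MP_c7af3c_ag.LX.H46.K3

/-!
# The K3 surfaces: the statement needed for the assembly
-/

set_option autoImplicit false

namespace Pool.Agent.LX.H87

theorem rat222 : H46.Rat222Statement := by
  intro k _ _ _ d hd F hF ha
  exact K222.ratCurve222 k d hd F hF ha

end Pool.Agent.LX.H87
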